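import Mathlib

/-!
# From few long gaps to many elements
-/

set_option autoImplicit false

open Finset

namespace Pool.Agent.V11235.SG

lemma good_le (R : ℕ → Prop) [DecidablePred R] (N G : ℕ)
    [DecidablePred fun k => ∀ i, k < i → i ≤ k + G → ¬ R i] :
    ((range (N - G)).filter (fun k => ¬ ∀ i, k < i → i ≤ k + G → ¬ R i)).card ≤
      G * ((Icc 1 N).filter R).card := by
  have hsub : (range (N - G)).filter (fun k => ¬ ∀ i, k < i → i ≤ k + G → ¬ R i) ⊆
      ((range G) ×ˢ ((Icc 1 N).filter R)).image (fun p : ℕ × ℕ => p.2 - 1 - p.1) := by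
    intro k hk
    obtain ⟨hk1, hk2⟩ := mem_filter.mp hk
    have hk3 := mem_range.mp hk1
    push Not at hk2
    obtain ⟨i, hi1, hi2, hi3⟩ := hk2
    refine mem_image.mpr ⟨(i - 1 - k, i), mem_product.mpr ⟨mem_range.mpr (by omega),
      mem_filter.mpr ⟨mem_Icc.mpr ⟨by omega, by omega⟩, hi3⟩⟩, ?_⟩
    simp only
    omega
  refine (card_le_card hsub).trans (card_image_le.trans ?_)
  rw [card_product, card_range]

lemma log_small (C : ℝ) (D : ℕ) (ε : ℝ) (hε : 0 < ε) :
    ∃ N0 : ℕ, ∀ N : ℕ, N0 ≤ N → Real.log (2 + C * ((N : ℝ) + 1) ^ D) ≤ ε * N := by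
  have h1 := Real.isLittleO_log_id_atTop
  have h2 : 0 < ε / (4 * (D + 1)) := by positivity
  have h3 := h1.bound h2
  rw [Filter.eventually_atTop] at h3
  obtain ⟨x0, hx0⟩ := h3
  obtain ⟨N1, hN1⟩ := exists_nat_ge (max x0 (2 * (Real.log (2 + |C|)) / ε + 1))
  refine ⟨N1, fun N hN => ?_⟩
  have hNR : (N1 : ℝ) ≤ N := by exact_mod_cast hN
  have h5 := hx0 ((N : ℝ) + 1) (by
    have := (le_max_left x0 (2 * (Real.log (2 + |C|)) / ε + 1)).trans hN1
    linarith)
  have h6 : (2 * (Real.log (2 + |C|)) / ε + 1) ≤ N :=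
    ((le_max_right x0 (2 * (Real.log (2 + |C|)) / ε + 1)).trans hN1).trans hNR
  have hC0 : 0 ≤ |C| := abs_nonneg C
  have hlC : 0 ≤ Real.log (2 + |C|) := Real.log_nonneg (by linarith)
  have hN1' : (1 : ℝ) ≤ N := by
    have : 0 ≤ 2 * (Real.log (2 + |C|)) / ε := by positivity
    linarith
  have h7 : 2 * Real.log (2 + |C|) ≤ ε * N := by
    have e : 2 * (Real.log (2 + |C|)) / ε ≤ N := by linarith
    rw [div_le_iff₀ hε] at e
    linarith
  have hp : (1 : ℝ) ≤ ((N : ℝ) + 1) ^ D := one_le_pow₀ (by linarith)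
  by_cases hpos : 0 < 2 + C * ((N : ℝ) + 1) ^ D
  · have h8 : 2 + C * ((N : ℝ) + 1) ^ D ≤ (2 + |C|) * ((N : ℝ) + 1) ^ D := by
      have e1 : C * ((N : ℝ) + 1) ^ D ≤ |C| * ((N : ℝ) + 1) ^ D :=
        mul_le_mul_of_nonneg_right (le_abs_self C) (by linarith)
      nlinarith
    have h9 := Real.log_le_log hpos h8
    rw [Real.log_mul (by positivity) (by positivity), Real.log_pow] at h9
    simp only [id, Real.norm_eq_abs] at h5
    have h10 : Real.log ((N : ℝ) + 1) ≤ ε / (4 * (D + 1)) * ((N : ℝ) + 1) := by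
      refine (le_abs_self _).trans (h5.trans ?_)
      rw [abs_of_pos (by linarith : (0 : ℝ) < (N : ℝ) + 1)]
    have h11 : (D : ℝ) * Real.log ((N : ℝ) + 1) ≤ ε / 4 * ((N : ℝ) + 1) := by
      have e1 := mul_le_mul_of_nonneg_left h10 (Nat.cast_nonneg (α := ℝ) D)
      have e2 : (D : ℝ) * (ε / (4 * (D + 1)) * ((N : ℝ) + 1)) =
          (D / (D + 1)) * (ε / 4 * ((N : ℝ) + 1)) := by field_simp
      have e3 : (D : ℝ) / (D + 1) ≤ 1 := by
        rw [div_le_one (by positivity)]; linarith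
      have e4 : 0 ≤ ε / 4 * ((N : ℝ) + 1) := by positivity
      nlinarith
    nlinarith
  · push Not at hpos
    have h12 : 2 + C * ((N : ℝ) + 1) ^ D ≤ 0 := hpos
    have h13 : Real.log (2 + C * ((N : ℝ) + 1) ^ D) ≤ Real.log ((2 + |C|) * ((N : ℝ) + 1) ^ D) := by
      rw [← Real.log_neg_eq_log]
      rcases h12.lt_or_eq with h | h
      · apply Real.log_le_log (by linarith)
        have e1 : -C * ((N : ℝ) + 1) ^ D ≤ |C| * ((N : ℝ) + 1) ^ D :=
          mul_le_mul_of_nonneg_right (neg_le_abs C) (by linarith)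
        nlinarith
      · rw [h]
        simp only [neg_zero, Real.log_zero]
        exact Real.log_nonneg (by nlinarith)
    rw [Real.log_mul (by positivity) (by positivity), Real.log_pow] at h13
    simp only [id, Real.norm_eq_abs] at h5
    have h10 : Real.log ((N : ℝ) + 1) ≤ ε / (4 * (D + 1)) * ((N : ℝ) + 1) := by
      refine (le_abs_self _).trans (h5.trans ?_)
      rw [abs_of_pos (by linarith : (0 : ℝ) < (N : ℝ) + 1)]
    have h11 : (D : ℝ) * Real.log ((N : ℝ) + 1) ≤ ε / 4 * ((N : ℝ) + 1) := by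
      have e1 := mul_le_mul_of_nonneg_left h10 (Nat.cast_nonneg (α := ℝ) D)
      have e2 : (D : ℝ) * (ε / (4 * (D + 1)) * ((N : ℝ) + 1)) =
          (D / (D + 1)) * (ε / 4 * ((N : ℝ) + 1)) := by field_simp
      have e3 : (D : ℝ) / (D + 1) ≤ 1 := by
        rw [div_le_one (by positivity)]; linarith
      have e4 : 0 ≤ ε / 4 * ((N : ℝ) + 1) := by positivity
      nlinarith
    nlinarith

open Classical in
theorem log_form {b : ℕ} (hb : 2 ≤ b) (R : ℕ → Prop) (X : ℕ → ℝ) (hX0 : ∀ N, 0 < X N)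
    (D : ℕ) (C : ℝ) (hXu : ∀ N, X N ≤ C * ((N : ℝ) + 1) ^ D)
    (hgap : ∀ N G : ℕ, (b : ℝ) ^ G *
      (((range N).filter (fun k => ∀ i, k < i → i ≤ k + G → ¬ R i)).card : ℝ) ≤ X (N + G)) :
    ∃ N0 : ℕ, ∀ N : ℕ, N0 ≤ N →
      Real.log 2 / 10 * N ≤ (((Icc 1 N).filter R).card : ℝ) * Real.log (2 + X N / N) := by
  have hl2 : 0 < Real.log 2 := Real.log_pos (by norm_num)
  obtain ⟨N0, hN0⟩ := log_small C D (Real.log 2 / 20) (by positivity)
  refine ⟨max N0 1, fun N hN => ?_⟩
  have hN1 : 1 ≤ N := (le_max_right _ _).trans hN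
  have hNR : (1 : ℝ) ≤ N := by exact_mod_cast hN1
  set u : ℝ := X N / N with hu
  have hu0 : 0 < u := div_pos (hX0 N) (by linarith)
  have huN : u * N = X N := by rw [hu]; field_simp
  have hlog : 0 < Real.log b := Real.log_pos (by
    have : (2 : ℝ) ≤ b := by exact_mod_cast hb
    linarith)
  have hlogb : Real.log 2 ≤ Real.log b := Real.log_le_log (by norm_num) (by exact_mod_cast hb)
  set G : ℕ := ⌈Real.log (4 * u) / Real.log b⌉₊ + 1 with hG
  have hlu : Real.log 2 ≤ Real.log (2 + u) := Real.log_le_log (by norm_num) (by linarith)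
  have hbG : 4 * u ≤ (b : ℝ) ^ G := by
    have h1 : Real.log (4 * u) / Real.log b ≤ G := by
      have := Nat.le_ceil (Real.log (4 * u) / Real.log b)
      rw [hG]; push_cast; linarith
    rw [div_le_iff₀ hlog] at h1
    have h2 : Real.log (4 * u) ≤ Real.log ((b : ℝ) ^ G) := by rw [Real.log_pow]; exact h1
    have hb0 : (0 : ℝ) < (b : ℝ) ^ G := by positivity
    exact (Real.log_le_log_iff (by positivity) hb0).mp h2
  have hGle : (G : ℝ) ≤ 5 / Real.log 2 * Real.log (2 + u) := by
    have h4 : Real.log 4 = 2 * Real.log 2 := by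
      rw [show (4 : ℝ) = 2 ^ 2 by norm_num, Real.log_pow]; norm_num
    have h1 : Real.log (4 * u) ≤ 2 * Real.log 2 + Real.log (2 + u) := by
      rw [Real.log_mul (by norm_num) hu0.ne', h4]
      have := Real.log_le_log hu0 (show u ≤ 2 + u by linarith)
      linarith
    have hnn : (0 : ℝ) ≤ 2 * Real.log 2 + Real.log (2 + u) := by linarith
    have h2 : (0 : ℝ) ≤ (2 * Real.log 2 + Real.log (2 + u)) / Real.log 2 := div_nonneg hnn hl2.le
    have h3 : Real.log (4 * u) / Real.log b ≤ (2 * Real.log 2 + Real.log (2 + u)) / Real.log 2 := by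
      rcases le_total 0 (Real.log (4 * u)) with h | h
      · exact div_le_div₀ hnn h1 hl2 hlogb
      · exact (div_nonpos_of_nonpos_of_nonneg h hlog.le).trans h2
    have h5 : (⌈Real.log (4 * u) / Real.log b⌉₊ : ℝ) ≤
        (2 * Real.log 2 + Real.log (2 + u)) / Real.log 2 + 1 := by
      rcases le_total 0 (Real.log (4 * u) / Real.log b) with h | h
      · have := (Nat.ceil_lt_add_one h).le
        linarith
      · rw [Nat.ceil_eq_zero.mpr h]; push_cast; linarith
    have h6 : (G : ℝ) ≤ (2 * Real.log 2 + Real.log (2 + u)) / Real.log 2 + 2 := by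
      rw [hG]; push_cast; linarith
    refine h6.trans ?_
    rw [div_mul_eq_mul_div, div_add' _ _ _ hl2.ne', div_le_div_iff_of_pos_right hl2]
    linarith
  have hG4 : (G : ℝ) ≤ N / 4 := by
    have h1 := hN0 N ((le_max_left _ _).trans hN)
    have h2 : Real.log (2 + u) ≤ Real.log (2 + C * ((N : ℝ) + 1) ^ D) := by
      apply Real.log_le_log (by linarith)
      have h3 : u ≤ X N := by
        rw [hu]; exact div_le_self (hX0 N).le hNR
      linarith [hXu N]
    have h4 : (G : ℝ) ≤ 5 / Real.log 2 * (Real.log 2 / 20 * N) :=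
      hGle.trans (mul_le_mul_of_nonneg_left (h2.trans h1) (by positivity))
    have h5 : 5 / Real.log 2 * (Real.log 2 / 20 * N) = N / 4 := by field_simp; norm_num
    linarith
  have hGN : G ≤ N := by
    have : (G : ℝ) ≤ N := by linarith
    exact_mod_cast this
  have h1 := hgap (N - G) G
  rw [Nat.sub_add_cancel hGN] at h1
  set bad := (range (N - G)).filter (fun k => ∀ i, k < i → i ≤ k + G → ¬ R i) with hbad
  have h4 : (bad.card : ℝ) ≤ N / 4 := by
    have e1 : 4 * u * (bad.card : ℝ) ≤ X N :=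
      (mul_le_mul_of_nonneg_right hbG (Nat.cast_nonneg _)).trans h1
    rw [← huN] at e1
    have e2 : u * (4 * (bad.card : ℝ)) ≤ u * N := by linarith
    have e3 := le_of_mul_le_mul_left e2 hu0
    linarith
  have h5 := good_le R N G
  set good := (range (N - G)).filter (fun k => ¬ ∀ i, k < i → i ≤ k + G → ¬ R i) with hgood
  have h6 : bad.card + good.card = N - G := by
    rw [hbad, hgood, card_filter_add_card_filter_not]
    exact card_range _
  have h6' : (bad.card : ℝ) + good.card = N - G := by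
    have h7 : ((N - G : ℕ) : ℝ) = N - G := by rw [Nat.cast_sub hGN]
    rw [← h7]; exact_mod_cast h6
  have h5' : (good.card : ℝ) ≤ G * (((Icc 1 N).filter R).card : ℝ) := by exact_mod_cast h5
  have h7 : (N : ℝ) / 2 ≤ good.card := by linarith
  have h8 : (N : ℝ) / 2 ≤ 5 / Real.log 2 * Real.log (2 + u) * (((Icc 1 N).filter R).card : ℝ) :=
    h7.trans (h5'.trans (mul_le_mul_of_nonneg_right hGle (Nat.cast_nonneg _)))
  have h9 : 5 / Real.log 2 * Real.log (2 + u) * (((Icc 1 N).filter R).card : ℝ) =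
      (5 * ((((Icc 1 N).filter R).card : ℝ) * Real.log (2 + u))) / Real.log 2 := by ring
  rw [h9, le_div_iff₀ hl2] at h8
  linarith

end Pool.Agent.V11235.SG
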