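import Pool.Agent.V11235.SG.Alg
import Pool.Agent.V11235.SG.Log

/-!
# Sums of places of nonzero digits of an arbitrary algebraic number: the logarithmic form
-/

set_option autoImplicit false

open Finset Polynomial

namespace Pool.Agent.V11235.SG

open Pool.Agent.H394R2.Ones
open Pool.Agent.H820R3.DG

section
variable {b : ℕ} {y : ℝ}

lemma choose_G (hb : 2 ≤ b) (u : ℝ) (hu0 : 0 < u) :
    ∃ G : ℕ, 16 * u ≤ (b : ℝ) ^ G ∧ (G : ℝ) ≤ 7 / Real.log 2 * Real.log (2 + u) := by
  have hl2 : 0 < Real.log 2 := Real.log_pos (by norm_num)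
  have hlog : 0 < Real.log b := Real.log_pos (by
    have : (2 : ℝ) ≤ b := by exact_mod_cast hb
    linarith)
  have hlogb : Real.log 2 ≤ Real.log b := Real.log_le_log (by norm_num) (by exact_mod_cast hb)
  have hlu : Real.log 2 ≤ Real.log (2 + u) := Real.log_le_log (by norm_num) (by linarith)
  refine ⟨⌈Real.log (16 * u) / Real.log b⌉₊ + 1, ?_, ?_⟩
  · have h1 : Real.log (16 * u) / Real.log b ≤ ((⌈Real.log (16 * u) / Real.log b⌉₊ + 1 : ℕ) : ℝ) := by
      have := Nat.le_ceil (Real.log (16 * u) / Real.log b)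
      push_cast; linarith
    rw [div_le_iff₀ hlog] at h1
    have h2 : Real.log (16 * u) ≤ Real.log ((b : ℝ) ^ (⌈Real.log (16 * u) / Real.log b⌉₊ + 1)) := by
      rw [Real.log_pow]; exact h1
    have hb0 : (0 : ℝ) < (b : ℝ) ^ (⌈Real.log (16 * u) / Real.log b⌉₊ + 1) := by positivity
    exact (Real.log_le_log_iff (by positivity) hb0).mp h2
  · have h4 : Real.log 16 = 4 * Real.log 2 := by
      rw [show (16 : ℝ) = 2 ^ 4 by norm_num, Real.log_pow]; norm_num
    have h1 : Real.log (16 * u) ≤ 4 * Real.log 2 + Real.log (2 + u) := by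
      rw [Real.log_mul (by norm_num) hu0.ne', h4]
      have := Real.log_le_log hu0 (show u ≤ 2 + u by linarith)
      linarith
    have hnn : (0 : ℝ) ≤ 4 * Real.log 2 + Real.log (2 + u) := by linarith
    have h2 : (0 : ℝ) ≤ (4 * Real.log 2 + Real.log (2 + u)) / Real.log 2 := div_nonneg hnn hl2.le
    have h3 : Real.log (16 * u) / Real.log b ≤ (4 * Real.log 2 + Real.log (2 + u)) / Real.log 2 := by
      rcases le_total 0 (Real.log (16 * u)) with h | h
      · exact div_le_div₀ hnn h1 hl2 hlogb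
      · exact (div_nonpos_of_nonpos_of_nonneg h hlog.le).trans h2
    have h5 : (⌈Real.log (16 * u) / Real.log b⌉₊ : ℝ) ≤
        (4 * Real.log 2 + Real.log (2 + u)) / Real.log 2 + 1 := by
      rcases le_total 0 (Real.log (16 * u) / Real.log b) with h | h
      · have := (Nat.ceil_lt_add_one h).le
        linarith
      · rw [Nat.ceil_eq_zero.mpr h]; push_cast; linarith
    have h6 : ((⌈Real.log (16 * u) / Real.log b⌉₊ + 1 : ℕ) : ℝ) ≤
        (4 * Real.log 2 + Real.log (2 + u)) / Real.log 2 + 2 := by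
      push_cast; linarith
    refine h6.trans ?_
    rw [div_mul_eq_mul_div, div_add' _ _ _ hl2.ne', div_le_div_iff_of_pos_right hl2]
    linarith

lemma log_mul_le {C v : ℝ} (hC : 1 ≤ C) (hv : 0 < v) :
    Real.log (2 + C * v) ≤ (1 + Real.log C / Real.log 2) * Real.log (2 + v) := by
  have hl2 : 0 < Real.log 2 := Real.log_pos (by norm_num)
  have hC0 : 0 ≤ Real.log C := Real.log_nonneg hC
  have hlu : Real.log 2 ≤ Real.log (2 + v) := Real.log_le_log (by norm_num) (by linarith)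
  have h1 : Real.log (2 + C * v) ≤ Real.log (C * (2 + v)) := by
    apply Real.log_le_log (by positivity)
    nlinarith
  rw [Real.log_mul (by positivity) (by positivity)] at h1
  have h2 : Real.log C = Real.log C / Real.log 2 * Real.log 2 := by field_simp
  have h3 : Real.log C / Real.log 2 * Real.log 2 ≤ Real.log C / Real.log 2 * Real.log (2 + v) :=
    mul_le_mul_of_nonneg_left hlu (div_nonneg hC0 hl2.le)
  linarith

/-- many `D`-fold sums -/
theorem alg_log (hb : 2 ≤ b) (hy0 : 0 < y) (hy1 : y < 1)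
    (halg : IsAlgebraic ℚ y) (hirr : Irrational y) (d : ℕ) (c : ℕ → ℤ)
    (hP : ∑ k ∈ range (d + 2 + 1), (c k : ℝ) * (1 + y) ^ k = 0) (hc : 0 < c (d + 2)) :
    ∃ κ : ℝ, 0 < κ ∧ ∃ ε : ℝ, 0 < ε ∧ ∃ N0 : ℕ, ∀ N : ℕ, N0 ≤ N →
      (1 + Real.log ((N : ℝ) + 1)) * (KK b y N : ℝ) ^ (d + 1) ≤ ε * N →
      κ * N ≤ (((Icc 1 N).filter (fun k => rr (xx b y) (d + 2) k ≠ 0)).card : ℝ) *
        Real.log (2 + (KK b y N : ℝ) ^ (d + 2) / N) := by
  classical
  have hl2 : 0 < Real.log 2 := Real.log_pos (by norm_num)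
  have hb2 : (2 : ℝ) ≤ b := by exact_mod_cast hb
  have hb1 : 0 < (b : ℝ) - 1 := by linarith
  have ha1 : (1 : ℝ) ≤ c (d + 2) := by exact_mod_cast hc
  set a : ℝ := ((c (d + 2) : ℤ) : ℝ) with ha
  set c' : ℝ := ∑ k ∈ range (d + 2), |(c k : ℝ)| with hc'
  have hc'0 : 0 ≤ c' := sum_nonneg fun _ _ => abs_nonneg _
  -- bad positions
  obtain ⟨C, hC, hCn⟩ := badStmt b y hb hy0 hy1 halg hirr (d + 1) c' (1 / 32) (by omega)
    (by norm_num)
  set C2 : ℝ := a * (3 ^ (d + 2) + 1) + c' * (3 ^ (d + 1) + 1) with hC2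
  have hC21 : 1 ≤ C2 := by
    have e1 : (1 : ℝ) ≤ 3 ^ (d + 2) + 1 := by
      have : (0 : ℝ) ≤ 3 ^ (d + 2) := by positivity
      linarith
    have e2 : (0 : ℝ) ≤ c' * (3 ^ (d + 1) + 1) := by positivity
    nlinarith
  have hC20 : 0 ≤ C2 := by linarith
  set K1 : ℝ := 7 / Real.log 2 * (1 + Real.log C2 / Real.log 2) with hK1
  have hK10 : 0 < K1 := by
    have := Real.log_nonneg hC21
    rw [hK1]; positivity
  obtain ⟨N1, hN1⟩ := Pool.Agent.V11235.SG.log_small (C2 * (b : ℝ) ^ (d + 2)) (d + 2)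
    (Real.log 2 / 112) (by positivity)
  refine ⟨1 / (2 * K1), by positivity, 1 / (32 * (C + 1)), by positivity, max N1 1,
    fun N hN hSN => ?_⟩
  have hN1' : N1 ≤ N := (le_max_left _ _).trans hN
  have hNR : (1 : ℝ) ≤ N := by exact_mod_cast (le_max_right _ _).trans hN
  set x : ℝ := (KK b y N : ℝ) with hx
  have hx1 : 1 ≤ x := by rw [hx]; exact_mod_cast KK_pos hy0 hy1 N
  have hlog : 0 ≤ Real.log ((N : ℝ) + 1) := Real.log_nonneg (by linarith)
  have hbadlog : C * (1 + Real.log ((N : ℝ) + 1)) * x ^ (d + 1) ≤ 1 / 32 * N := by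
    have h1 := mul_le_mul_of_nonneg_left hSN hC
    have h2 : C * (1 / (32 * (C + 1)) * N) ≤ 1 / 32 * N := by
      have e1 : C * (1 / (32 * (C + 1)) * N) = (C / (C + 1)) * (1 / 32 * N) := by
        field_simp
      have e2 : C / (C + 1) ≤ 1 := by rw [div_le_one (by positivity)]; linarith
      have e3 : (0 : ℝ) ≤ 1 / 32 * N := by positivity
      rw [e1]; nlinarith
    calc C * (1 + Real.log ((N : ℝ) + 1)) * x ^ (d + 1) =
        C * ((1 + Real.log ((N : ℝ) + 1)) * x ^ (d + 1)) := by ring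
      _ ≤ _ := h1.trans h2
  -- the length of the gaps
  set v : ℝ := x ^ (d + 2) / N with hv
  have hv0 : 0 < v := by rw [hv]; positivity
  set u : ℝ := C2 * v with hu
  have hu0 : 0 < u := by rw [hu]; positivity
  obtain ⟨G, hG1, hG2⟩ := choose_G hb u hu0
  have hGv : (G : ℝ) ≤ K1 * Real.log (2 + v) := by
    refine hG2.trans ?_
    rw [hK1, mul_assoc]
    exact mul_le_mul_of_nonneg_left (log_mul_le hC21 hv0) (by positivity)
  have hG16 : (G : ℝ) ≤ N / 16 := by
    have h1 := hN1 N hN1'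
    have h2 : Real.log (2 + u) ≤ Real.log (2 + C2 * (b : ℝ) ^ (d + 2) * ((N : ℝ) + 1) ^ (d + 2)) := by
      apply Real.log_le_log (by linarith)
      have h3 : x ≤ b * ((N : ℝ) + 1) := by
        have := KK_le (y := y) hb N
        rw [hx]; exact_mod_cast this
      have h4 : x ^ (d + 2) ≤ (b : ℝ) ^ (d + 2) * ((N : ℝ) + 1) ^ (d + 2) := by
        rw [← mul_pow]; exact pow_le_pow_left₀ (by linarith) h3 _
      have h5 : v ≤ x ^ (d + 2) := by
        rw [hv]; exact div_le_self (by positivity) hNR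
      have h6 := mul_le_mul_of_nonneg_left (h5.trans h4) hC20
      rw [hu, mul_assoc]; linarith
    have h4 : (G : ℝ) ≤ 7 / Real.log 2 * (Real.log 2 / 112 * N) :=
      hG2.trans (mul_le_mul_of_nonneg_left (h2.trans h1) (by positivity))
    have h5 : 7 / Real.log 2 * (Real.log 2 / 112 * N) = N / 16 := by field_simp; norm_num
    linarith
  have hGN : G ≤ N := by
    have : (G : ℝ) ≤ N := by linarith
    exact_mod_cast this
  set N' := N - G with hN'
  have hN'G : N' + G ≤ N := by omega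
  -- the three classes
  set bad := (range N').filter (fun m => TT b y (d + 2) m ≤ c' * TT b y (d + 1) m) with hbad
  set gap := (range N').filter (fun m => (¬ TT b y (d + 2) m ≤ c' * TT b y (d + 1) m) ∧
    ∀ i, m < i → i ≤ m + G → rr (xx b y) (d + 2) i = 0) with hgap
  set good := (range N').filter (fun m => ∃ i, m < i ∧ i ≤ m + G ∧ rr (xx b y) (d + 2) i ≠ 0)
    with hgood
  have hcover : range N' ⊆ bad ∪ gap ∪ good := by
    intro m hm
    rw [mem_union, mem_union, hbad, hgap, hgood, mem_filter, mem_filter, mem_filter]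
    by_cases h1 : TT b y (d + 2) m ≤ c' * TT b y (d + 1) m
    · exact Or.inl (Or.inl ⟨hm, h1⟩)
    · by_cases h2 : ∃ i, m < i ∧ i ≤ m + G ∧ rr (xx b y) (d + 2) i ≠ 0
      · exact Or.inr ⟨hm, h2⟩
      · refine Or.inl (Or.inr ⟨hm, h1, fun i hi1 hi2 => ?_⟩)
        by_contra h3
        exact h2 ⟨i, hi1, hi2, h3⟩
  have hcard : N' ≤ bad.card + gap.card + good.card := by
    have := card_le_card hcover
    rw [card_range] at this
    exact this.trans ((card_union_le _ _).trans (Nat.add_le_add_right (card_union_le _ _) _))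
  have hbadc : (bad.card : ℝ) ≤ 1 / 16 * N := by
    have h1 := hCn N
    rw [← hx] at h1
    have h2 : bad.card ≤
        ((range N).filter (fun m => TT b y (d + 1 + 1) m ≤ c' * TT b y (d + 1) m)).card := by
      apply card_le_card
      intro m hm
      obtain ⟨h3, h4⟩ := mem_filter.mp hm
      exact mem_filter.mpr ⟨mem_range.mpr (by have := mem_range.mp h3; omega), h4⟩
    have h2' : (bad.card : ℝ) ≤
        ((range N).filter (fun m => TT b y (d + 1 + 1) m ≤ c' * TT b y (d + 1) m)).card := by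
      exact_mod_cast h2
    have h3 : (((range N).filter
        (fun m => TT b y (d + 1 + 1) m ≤ c' * TT b y (d + 1) m)).card : ℝ) ≤
        C * (1 + Real.log ((N : ℝ) + 1)) * x ^ (d + 1) + 1 / 32 * N := by
      convert h1
    linarith
  have hgapc : (gap.card : ℝ) ≤ 1 / 16 * N := by
    have h1 : (b : ℝ) ^ G * (gap.card : ℝ) ≤
        ∑ m ∈ range N', (a * TT b y (d + 2) (m + G) + c' * TT b y (d + 1) (m + G)) := by
      rw [hgap, card_filter]
      push_cast
      rw [mul_sum]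
      refine sum_le_sum fun m _ => ?_
      have e1 := TT_nonneg hb hy0 hy1 (d + 2) (m + G)
      have e2 := TT_nonneg hb hy0 hy1 (d + 1) (m + G)
      split_ifs with h
      · have h2 := ZZ_pos hb hy0 hy1 d c hP hc m h.1
        have h3 := ZZ_gap (b := b) (y := y) c hP m G (fun k hk1 hk2 => h.2 k hk1 hk2)
        have h4 := ZZ_le hb hy0 hy1 d c hP (m + G)
        have h5 : (1 : ℝ) ≤ ZZ c (d + 2) (xx b y) b m := by exact_mod_cast h2
        have h6 : (0 : ℝ) ≤ (b : ℝ) ^ G := by positivity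
        rw [h3] at h4
        nlinarith
      · rw [mul_zero]; positivity
    have h2 : ∑ m ∈ range N', (a * TT b y (d + 2) (m + G) + c' * TT b y (d + 1) (m + G)) ≤
        ∑ m ∈ range N, (a * TT b y (d + 2) m + c' * TT b y (d + 1) m) := by
      have e : ∑ m ∈ range N', (a * TT b y (d + 2) (m + G) + c' * TT b y (d + 1) (m + G)) =
          ∑ m ∈ Ico G (N' + G), (a * TT b y (d + 2) m + c' * TT b y (d + 1) m) := by
        rw [sum_Ico_eq_sum_range, Nat.add_sub_cancel]
        exact sum_congr rfl fun k _ => by rw [add_comm k G]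
      rw [e]
      refine sum_le_sum_of_subset_of_nonneg ?_ fun m _ _ => ?_
      · intro k hk
        exact mem_range.mpr ((mem_Ico.mp hk).2.trans_le hN'G)
      · have e1 := TT_nonneg hb hy0 hy1 (d + 2) m
        have e2 := TT_nonneg hb hy0 hy1 (d + 1) m
        positivity
    have h2r : ∑ m ∈ range N, (a * TT b y (d + 2) m + c' * TT b y (d + 1) m) =
        a * ∑ m ∈ range N, TT b y (d + 2) m + c' * ∑ m ∈ range N, TT b y (d + 1) m := by
      rw [sum_add_distrib, ← mul_sum, ← mul_sum]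
    rw [h2r] at h2
    have h4 := TT_sum hb hy0 hy1 (d + 2) N
    have h5 := TT_sum hb hy0 hy1 (d + 1) N
    have h6 := TT_upper hb hy0 hy1 (d + 1) N
    have h7 := TT_upper hb hy0 hy1 d N
    rw [← hx] at h4 h5 h6 h7
    have p1 : x ^ d ≤ x ^ (d + 2) := pow_le_pow_right₀ hx1 (by omega)
    have p2 : x ^ (d + 1) ≤ x ^ (d + 2) := pow_le_pow_right₀ hx1 (by omega)
    have p3 : 0 ≤ ∑ m ∈ range N, TT b y (d + 2) m :=
      sum_nonneg fun m _ => TT_nonneg hb hy0 hy1 (d + 2) m
    have p4 : 0 ≤ ∑ m ∈ range N, TT b y (d + 1) m :=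
      sum_nonneg fun m _ => TT_nonneg hb hy0 hy1 (d + 1) m
    have q1 : (3 : ℝ) ^ (d + 2) * x ^ (d + 1) ≤ 3 ^ (d + 2) * x ^ (d + 2) :=
      mul_le_mul_of_nonneg_left p2 (by positivity)
    have q2 : (3 : ℝ) ^ (d + 1) * x ^ d ≤ 3 ^ (d + 1) * x ^ (d + 2) :=
      mul_le_mul_of_nonneg_left p1 (by positivity)
    have r1 : ∑ m ∈ range N, TT b y (d + 2) m ≤ (3 ^ (d + 2) + 1) * x ^ (d + 2) := by nlinarith
    have r2 : ∑ m ∈ range N, TT b y (d + 1) m ≤ (3 ^ (d + 1) + 1) * x ^ (d + 2) := by nlinarith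
    have r3 := mul_le_mul_of_nonneg_left r1 (by linarith : 0 ≤ a)
    have r4 := mul_le_mul_of_nonneg_left r2 hc'0
    have h8 : (b : ℝ) ^ G * (gap.card : ℝ) ≤ u * N := by
      have e2 : C2 * x ^ (d + 2) = a * ((3 ^ (d + 2) + 1) * x ^ (d + 2)) +
        c' * ((3 ^ (d + 1) + 1) * x ^ (d + 2)) := by rw [hC2]; ring
      have e3 : u * N = C2 * x ^ (d + 2) := by rw [hu, hv]; field_simp
      linarith
    have h9 : 16 * u * (gap.card : ℝ) ≤ u * N :=
      (mul_le_mul_of_nonneg_right hG1 (Nat.cast_nonneg _)).trans h8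
    have h10 : u * (16 * (gap.card : ℝ)) ≤ u * N := by linarith
    have h11 := le_of_mul_le_mul_left h10 hu0
    linarith
  have hgoodc : good.card ≤
      G * ((Icc 1 N).filter (fun k => rr (xx b y) (d + 2) k ≠ 0)).card := by
    have hsub : good ⊆ ((range G) ×ˢ
        ((Icc 1 N).filter (fun k => rr (xx b y) (d + 2) k ≠ 0))).image
        (fun p : ℕ × ℕ => p.2 - 1 - p.1) := by
      intro k hk
      obtain ⟨hk1, i, hi1, hi2, hi3⟩ := mem_filter.mp hk
      have hk3 := mem_range.mp hk1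
      refine mem_image.mpr ⟨(i - 1 - k, i), mem_product.mpr ⟨mem_range.mpr (by omega),
        mem_filter.mpr ⟨mem_Icc.mpr ⟨by omega, by omega⟩, hi3⟩⟩, ?_⟩
      simp only
      omega
    refine (card_le_card hsub).trans (card_image_le.trans ?_)
    rw [card_product, card_range]
  have hN'R : (N' : ℝ) = N - G := by rw [hN', Nat.cast_sub hGN]
  have hcardR : (N' : ℝ) ≤ bad.card + gap.card + good.card := by exact_mod_cast hcard
  have hgoodR : (good.card : ℝ) ≤
      G * (((Icc 1 N).filter (fun k => rr (xx b y) (d + 2) k ≠ 0)).card : ℝ) := by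
    exact_mod_cast hgoodc
  set m : ℝ := (((Icc 1 N).filter (fun k => rr (xx b y) (d + 2) k ≠ 0)).card : ℝ) with hm
  have hm0 : 0 ≤ m := Nat.cast_nonneg _
  have h7 : (N : ℝ) / 2 ≤ good.card := by linarith
  have h8 : (N : ℝ) / 2 ≤ K1 * Real.log (2 + v) * m :=
    h7.trans (hgoodR.trans (mul_le_mul_of_nonneg_right hGv hm0))
  rw [div_mul_eq_mul_div, one_mul, div_le_iff₀ (by positivity)]
  linarith

open Classical in
/-- the logarithmic form for roots of integer polynomials -/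
theorem real_log (hb : 2 ≤ b) (P : ℤ[X]) (hD : 2 ≤ P.natDegree) {ξ : ℝ} (hirr : Irrational ξ)
    (hP : aeval ξ P = 0) :
    ∃ κ : ℝ, 0 < κ ∧ ∃ ε : ℝ, 0 < ε ∧ ∃ N0 : ℕ, ∀ N : ℕ, N0 ≤ N →
      Real.log N * ((∑ k ∈ Icc 1 N, digit b ξ k : ℤ) : ℝ) ^ (P.natDegree - 1) ≤ ε * N →
      κ * N ≤ (((Icc 1 N).filter (fun k => ∃ l : List ℕ, l ≠ [] ∧ l.length ≤ P.natDegree ∧
        (∀ i ∈ l, 1 ≤ i ∧ digit b ξ i ≠ 0) ∧ l.sum = k)).card : ℝ) *
        Real.log (2 + ((∑ k ∈ Icc 1 N, digit b ξ k : ℤ) : ℝ) ^ P.natDegree / N) := by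
  -- make the leading coefficient positive
  wlog hlead : 0 < P.leadingCoeff generalizing P with hwlog
  · have hP0 : P ≠ 0 := by rintro rfl; simp at hD
    have hl0 : P.leadingCoeff ≠ 0 := leadingCoeff_ne_zero.mpr hP0
    have h := hwlog (-P) (by rw [natDegree_neg]; exact hD) (by rw [map_neg, hP, neg_zero])
      (by rw [leadingCoeff_neg]; omega)
    rw [natDegree_neg] at h
    exact h
  obtain ⟨d, hd⟩ : ∃ d, P.natDegree = d + 2 := ⟨P.natDegree - 2, by omega⟩
  set y : ℝ := Int.fract ξ with hy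
  have hyirr : Irrational y := by
    have : y = ξ - (⌊ξ⌋ : ℤ) := rfl
    rw [this]
    exact hirr.sub_intCast _
  have hy0 : 0 < y := lt_of_le_of_ne (Int.fract_nonneg ξ) (Ne.symm hyirr.ne_zero)
  have hy1 : y < 1 := Int.fract_lt_one ξ
  set r : ℤ := ⌊ξ⌋ - 1 with hr
  set Q : ℤ[X] := P.comp (X + C r) with hQ
  have hQdeg : Q.natDegree = d + 2 := by
    rw [hQ, natDegree_comp, natDegree_X_add_C, mul_one, hd]
  have hQlead : Q.leadingCoeff = P.leadingCoeff := by
    rw [hQ, leadingCoeff_comp (by rw [natDegree_X_add_C]; norm_num), leadingCoeff_X_add_C,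
      one_pow, mul_one]
  have hQ0 : aeval (1 + y) Q = 0 := by
    rw [hQ, aeval_comp]
    have : aeval (1 + y) (X + C r : ℤ[X]) = ξ := by
      have h1 : (⌊ξ⌋ : ℝ) + y = ξ := Int.floor_add_fract ξ
      have h2 : aeval (1 + y) (X + C r : ℤ[X]) = (1 + y) + (r : ℝ) := by
        rw [map_add, aeval_X, aeval_C]; rfl
      rw [h2, hr]
      push_cast
      linarith
    rw [this]; exact hP
  have hQsum : ∑ k ∈ range (d + 2 + 1), (Q.coeff k : ℝ) * (1 + y) ^ k = 0 := by
    rw [aeval_eq_sum_range, hQdeg] at hQ0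
    simpa [zsmul_eq_mul] using hQ0
  have hcoeff : Q.coeff (d + 2) = P.leadingCoeff := by
    rw [← hQlead]
    unfold leadingCoeff
    rw [hQdeg]
  have hξalg : IsAlgebraic ℚ ξ := by
    have h1 : IsAlgebraic ℤ ξ := ⟨P, by
      intro h
      rw [h] at hlead
      simp at hlead, hP⟩
    exact (IsFractionRing.isAlgebraic_iff ℤ ℚ ℝ).mp h1
  have halg : IsAlgebraic ℚ y := by
    have h1 : y = ξ - algebraMap ℚ ℝ (⌊ξ⌋ : ℚ) := by
      have : y = ξ - (⌊ξ⌋ : ℤ) := rfl
      rw [this]; simp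
    rw [h1]
    exact hξalg.sub (isAlgebraic_algebraMap _)
  obtain ⟨κ, hκ, ε, hε, N0, h⟩ := alg_log hb hy0 hy1 halg hyirr d (fun k => Q.coeff k) hQsum (by
      show 0 < Q.coeff (d + 2)
      rw [hcoeff]; exact hlead)
  have hdig : ∀ k : ℕ, 1 ≤ k → digit b ξ k = (x b y k : ℤ) := by
    intro k hk
    obtain ⟨j, rfl⟩ : ∃ j, k = j + 1 := ⟨k - 1, by omega⟩
    have h1 := digit_sum_eq hb hirr (j + 1)
    have h2 := digit_sum_eq hb hirr j
    rw [Finset.sum_Icc_succ_top (by omega)] at h1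
    push_cast at h1 h2
    have h3 : (K b y (j + 1) : ℝ) = K b y j + x b y (j + 1) := by
      unfold K; rw [sum_range_succ _ (j + 1)]; push_cast; ring
    rw [← hy, h3] at h1
    rw [← hy] at h2
    have h4 : (digit b ξ (j + 1) : ℝ) = ((x b y (j + 1) : ℕ) : ℝ) := by linarith
    exact_mod_cast h4
  have hl2 : 0 < Real.log 2 := Real.log_pos (by norm_num)
  obtain ⟨N1, hN1⟩ := Pool.Agent.V11235.SG.log_small 1 1 (ε / 3) (by positivity)
  refine ⟨κ / (d + 3), by positivity, ε / (3 * 2 ^ (d + 1)), by positivity, max (max N0 N1) 3,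
    fun N hN hS => ?_⟩
  have hN0 : N0 ≤ N := (le_max_left _ _).trans ((le_max_left _ _).trans hN)
  have hN1' : N1 ≤ N := (le_max_right _ _).trans ((le_max_left _ _).trans hN)
  have hN3 : (3 : ℝ) ≤ N := by exact_mod_cast (le_max_right _ _).trans hN
  rw [digit_sum_eq hb hirr, hd, ← hy] at hS ⊢
  have e0 : d + 2 - 1 = d + 1 := by omega
  rw [e0] at hS
  have h2 : ((KK b y N : ℕ) : ℝ) = K b y N + 1 := by
    rw [KK_eq hy0 hy1]; push_cast; ring
  set S : ℝ := (K b y N : ℝ) with hSdef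
  have hlogN : 1 ≤ Real.log N := by
    rw [Real.le_log_iff_exp_le (by linarith)]
    linarith [Real.exp_one_lt_d9]
  have hlogN1 : Real.log ((N : ℝ) + 1) ≤ 2 * Real.log N := by
    have e1 : (N : ℝ) + 1 ≤ (N : ℝ) ^ 2 := by nlinarith
    have e2 := Real.log_le_log (by linarith) e1
    rw [Real.log_pow] at e2
    push_cast at e2
    exact e2
  have hlogN0 : 0 ≤ Real.log ((N : ℝ) + 1) := Real.log_nonneg (by linarith)
  have hNpos : (0 : ℝ) < N := by linarith
  -- the hypothesis and the logarithm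
  have hboth : (1 + Real.log ((N : ℝ) + 1)) * (S + 1) ^ (d + 1) ≤ ε * N ∧
      Real.log (2 + (S + 1) ^ (d + 2) / N) ≤ (d + 3) * Real.log (2 + S ^ (d + 2) / N) := by
    rcases Nat.eq_zero_or_pos (K b y N) with h0 | hpos
    · have hS0 : S = 0 := by rw [hSdef, h0]; norm_num
      rw [hS0]
      constructor
      · have h3 := hN1 N hN1'
        have h4 : (1 : ℝ) + Real.log ((N : ℝ) + 1) ≤ 3 * Real.log (2 + 1 * ((N : ℝ) + 1) ^ 1) := by
          have e1 : Real.log ((N : ℝ) + 1) ≤ Real.log (2 + 1 * ((N : ℝ) + 1) ^ 1) :=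
            Real.log_le_log (by linarith) (by linarith)
          have e2 : 1 ≤ Real.log (2 + 1 * ((N : ℝ) + 1) ^ 1) :=
            hlogN.trans (Real.log_le_log (by linarith) (by linarith))
          linarith
        rw [zero_add, one_pow, mul_one]
        linarith
      · rw [zero_add, one_pow, zero_pow (by omega), zero_div, add_zero]
        have e1 : (1 : ℝ) / N ≤ 2 := by
          rw [div_le_iff₀ hNpos]; linarith
        have e2 : Real.log (2 + 1 / (N : ℝ)) ≤ Real.log 4 :=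
          Real.log_le_log (by positivity) (by linarith)
        have e3 : Real.log 4 = 2 * Real.log 2 := by
          rw [show (4 : ℝ) = 2 ^ 2 by norm_num, Real.log_pow]; norm_num
        have e4 : (0 : ℝ) ≤ d := Nat.cast_nonneg _
        nlinarith
    · have hS1 : 1 ≤ S := by rw [hSdef]; exact_mod_cast hpos
      have e1 : S + 1 ≤ 2 * S := by linarith
      constructor
      · have e2 : (S + 1) ^ (d + 1) ≤ 2 ^ (d + 1) * S ^ (d + 1) := by
          rw [← mul_pow]; exact pow_le_pow_left₀ (by linarith) e1 _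
        have e3 : (1 : ℝ) + Real.log ((N : ℝ) + 1) ≤ 3 * Real.log N := by linarith
        calc (1 + Real.log ((N : ℝ) + 1)) * (S + 1) ^ (d + 1)
            ≤ (3 * Real.log N) * (2 ^ (d + 1) * S ^ (d + 1)) :=
              mul_le_mul e3 e2 (by positivity) (by linarith)
          _ = (3 * 2 ^ (d + 1)) * (Real.log N * S ^ (d + 1)) := by ring
          _ ≤ (3 * 2 ^ (d + 1)) * (ε / (3 * 2 ^ (d + 1)) * N) :=
              mul_le_mul_of_nonneg_left hS (by positivity)
          _ = ε * N := by field_simp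
      · have e2 : (S + 1) ^ (d + 2) / N ≤ 2 ^ (d + 2) * (S ^ (d + 2) / N) := by
          rw [← mul_div_assoc, ← mul_pow]
          exact div_le_div_of_nonneg_right (pow_le_pow_left₀ (by linarith) e1 _) hNpos.le
        have e3 : 0 < S ^ (d + 2) / N := by positivity
        have e4 := log_mul_le (C := 2 ^ (d + 2)) (one_le_pow₀ (by norm_num)) e3
        have e5 : Real.log (2 + (S + 1) ^ (d + 2) / N) ≤
            Real.log (2 + 2 ^ (d + 2) * (S ^ (d + 2) / N)) :=
          Real.log_le_log (by positivity) (by linarith)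
        rw [Real.log_pow] at e4
        have e6 : (1 + ((d + 2 : ℕ) : ℝ) * Real.log 2 / Real.log 2) = (d : ℝ) + 3 := by
          rw [mul_div_assoc, div_self hl2.ne']; push_cast; ring
        rw [e6] at e4
        exact e5.trans e4
  have h1 := h N hN0 (by rw [h2]; exact hboth.1)
  rw [h2] at h1
  set m1 : ℝ := (((Icc 1 N).filter (fun k => rr (xx b y) (d + 2) k ≠ 0)).card : ℝ) with hm1
  have hm10 : 0 ≤ m1 := Nat.cast_nonneg _
  set m2 : ℝ := (((Icc 1 N).filter (fun k => ∃ l : List ℕ, l ≠ [] ∧ l.length ≤ d + 2 ∧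
        (∀ i ∈ l, 1 ≤ i ∧ digit b ξ i ≠ 0) ∧ l.sum = k)).card : ℝ) with hm2
  have hm12 : m1 ≤ m2 := by
    refine Nat.cast_le.mpr (card_le_card ?_)
    intro k hk
    obtain ⟨hk1, hk2⟩ := mem_filter.mp hk
    refine mem_filter.mpr ⟨hk1, ?_⟩
    obtain ⟨l, hl1, hl2, hl3, hl4⟩ := sum_places (b := b) (y := y) (mem_Icc.mp hk1).1 hk2
    refine ⟨l, hl1, hl2, fun i hi => ?_, hl4⟩
    obtain ⟨h5, h6⟩ := hl3 i hi
    refine ⟨h5, ?_⟩
    rw [hdig i h5]
    exact_mod_cast h6
  have hS0 : 0 ≤ S := Nat.cast_nonneg _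
  have hL0 : 0 ≤ Real.log (2 + S ^ (d + 2) / N) :=
    Real.log_nonneg (by have : 0 ≤ S ^ (d + 2) / N := by positivity
                        linarith)
  have hfin : κ * N ≤ m2 * ((d + 3) * Real.log (2 + S ^ (d + 2) / N)) := by
    refine h1.trans ?_
    refine (mul_le_mul_of_nonneg_left hboth.2 hm10).trans ?_
    exact mul_le_mul_of_nonneg_right hm12 (by positivity)
  rw [div_mul_eq_mul_div, div_le_iff₀ (by positivity)]
  linarith

end

end Pool.Agent.V11235.SG
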