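import Pool.Agent.V11235.SG.Prop
import Pool.Agent.V11235.TP.Real

/-!
# Sums of places of nonzero digits of an arbitrary algebraic number
-/

set_option autoImplicit false

open Finset Polynomial

namespace Pool.Agent.V11235.SG

open Pool.Agent.H394R2.Ones
open Pool.Agent.H820R3.DG

section
variable {b : ℕ} {y : ℝ}

lemma ZZ_gap {d : ℕ} (c : ℕ → ℤ)
    (hP : ∑ k ∈ range (d + 2 + 1), (c k : ℝ) * (1 + y) ^ k = 0) (N g : ℕ)
    (hk : ∀ k, N < k → k ≤ N + g → rr (xx b y) (d + 2) k = 0) :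
    (ZZ c (d + 2) (xx b y) b (N + g) : ℝ) = (b : ℝ) ^ g * ZZ c (d + 2) (xx b y) b N := by
  rw [ZZ_eq c (d + 2) hP, ZZ_eq c (d + 2) hP, mul_sum]
  refine sum_congr rfl fun j hj => ?_
  rw [TT_zeros j N g (fun k hk1 hk2 => rr_zero_of (d + 2) k (hk k hk1 hk2) j
    (by have := mem_range.mp hj; omega))]
  ring

/-- positive proportion of the `D`-fold sums -/
theorem pos_alg (hb : 2 ≤ b) (hy0 : 0 < y) (hy1 : y < 1)
    (halg : IsAlgebraic ℚ y) (hirr : Irrational y) (d : ℕ) (c : ℕ → ℤ)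
    (hP : ∑ k ∈ range (d + 2 + 1), (c k : ℝ) * (1 + y) ^ k = 0) (hc : 0 < c (d + 2)) (A : ℝ) :
    ∃ κ : ℝ, 0 < κ ∧ ∃ N0 : ℕ, ∀ N : ℕ, N0 ≤ N → (KK b y N : ℝ) ^ (d + 2) ≤ A * N →
      κ * N ≤ (((Icc 1 N).filter (fun k => rr (xx b y) (d + 2) k ≠ 0)).card : ℝ) := by
  classical
  have hb2 : (2 : ℝ) ≤ b := by exact_mod_cast hb
  have hb1 : 0 < (b : ℝ) - 1 := by linarith
  have ha1 : (1 : ℝ) ≤ c (d + 2) := by exact_mod_cast hc
  set a : ℝ := ((c (d + 2) : ℤ) : ℝ) with ha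
  set c' : ℝ := ∑ k ∈ range (d + 2), |(c k : ℝ)| with hc'
  have hc'0 : 0 ≤ c' := sum_nonneg fun _ _ => abs_nonneg _
  set A' : ℝ := max A 1 with hA'
  have hA1 : 1 ≤ A' := le_max_right _ _
  -- bad positions
  obtain ⟨C, hC, hCn⟩ := badStmt b y hb hy0 hy1 halg hirr (d + 1) c' (1 / 32) (by omega)
    (by norm_num)
  set C2 : ℝ := a * (3 ^ (d + 2) + 1) + c' * (3 ^ (d + 1) + 1) with hC2
  have hC20 : 0 ≤ C2 := by positivity
  obtain ⟨G, hG⟩ := pow_unbounded_of_one_lt (16 * C2 * A') (show (1 : ℝ) < b by linarith)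
  -- growth
  have hgrow : ∃ c1 : ℝ, 0 < c1 ∧ ∃ m1 : ℕ, ∀ m : ℕ, m1 ≤ m →
      c1 * m ≤ ((KK b y m : ℕ) : ℝ) ^ (d + 2) := by
    set κ1 : ℝ := ((b : ℝ) - 1) * ((1 : ℕ) : ℝ) / (((1 : ℕ) : ℝ) * c (d + 2)) with hκ1
    have hκ10 : 0 < κ1 := by
      rw [hκ1]; push_cast; positivity
    obtain ⟨m1, hm1⟩ := deg_main Pool.Agent.H726R3.FactDvd.factStmt hb hy0 hy1 halg hirr d c hP
      hc 1 1 le_rfl (by
        intro t
        rw [sum_range_one]
        have : 0 ≤ (((b : ℤ) ^ 0 * t - 1) % (c (d + 2) * ((d + 2).factorial : ℤ))) :=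
          Int.emod_nonneg _ (mul_pos hc (by exact_mod_cast Nat.factorial_pos _)).ne'
        push_cast
        linarith) (κ1 / 2) (by positivity)
    refine ⟨κ1 / 2, by positivity, m1, fun m hm => ?_⟩
    have h1 := hm1 m hm
    have h2 : (K b y m : ℝ) ^ (d + 2) ≤ ((KK b y m : ℕ) : ℝ) ^ (d + 2) := by
      apply pow_le_pow_left₀ (Nat.cast_nonneg _)
      rw [KK_eq hy0 hy1]
      push_cast
      linarith
    have h3 : κ1 - κ1 / 2 = κ1 / 2 := by ring
    rw [← hκ1, h3] at h1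
    linarith
  obtain ⟨c1, hc1, m1, hm1⟩ := hgrow
  set c0 : ℝ := min c1 1 with hc0
  have hc00 : 0 < c0 := by positivity
  obtain ⟨m3, hm3⟩ := (log_small d (1 / 32 * c0 / (C * A' + 1)) (by positivity)).exists_forall_of_atTop
  refine ⟨1 / (4 * (G + 1)), by positivity, max (max m1 m3) (16 * (G + 1)), fun N hN hSN => ?_⟩
  have hN1 : m1 ≤ N := (le_max_left _ _).trans ((le_max_left _ _).trans hN)
  have hN3 : m3 ≤ N := (le_max_right _ _).trans ((le_max_left _ _).trans hN)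
  have hNG : 16 * (G + 1) ≤ N := (le_max_right _ _).trans hN
  have hNR : (16 * ((G : ℝ) + 1)) ≤ N := by exact_mod_cast hNG
  have hG0 : (0 : ℝ) ≤ G := Nat.cast_nonneg _
  have hN16 : (16 : ℝ) ≤ N := by linarith
  set x : ℝ := (KK b y N : ℝ) with hx
  have hx1 : 1 ≤ x := by rw [hx]; exact_mod_cast KK_pos hy0 hy1 N
  have hSN' : x ^ (d + 2) ≤ A' * N :=
    hSN.trans (mul_le_mul_of_nonneg_right (le_max_left _ _) (by linarith))
  -- the logarithmic term
  set s : ℝ := (N : ℝ) ^ ((1 : ℝ) / (d + 2)) with hs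
  have hs1 : 1 ≤ s := Real.one_le_rpow (by linarith) (by positivity)
  have hsn : s ^ (d + 2) = N := by
    rw [hs, ← Real.rpow_natCast, ← Real.rpow_mul (by linarith)]
    push_cast
    rw [one_div, inv_mul_cancel₀ (by positivity), Real.rpow_one]
  have hxs : c0 * s ≤ x := by
    have h1 : (c0 * s) ^ (d + 2) ≤ x ^ (d + 2) := by
      rw [mul_pow, hsn]
      have h2 : c0 ^ (d + 2) ≤ c0 := pow_le_of_le_one hc00.le (min_le_right _ _) (by omega)
      have h3 : c0 ≤ c1 := min_le_left _ _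
      calc c0 ^ (d + 2) * N ≤ c1 * N :=
            mul_le_mul_of_nonneg_right (h2.trans h3) (by linarith)
        _ ≤ x ^ (d + 2) := hm1 N hN1
    exact le_of_pow_le_pow_left₀ (by omega) (by linarith) h1
  have hlog : 0 ≤ Real.log ((N : ℝ) + 1) := Real.log_nonneg (by linarith)
  have hbadlog : C * (1 + Real.log ((N : ℝ) + 1)) * x ^ (d + 1) ≤ 1 / 32 * N := by
    have h1 := hm3 N hN3
    rw [← hs] at h1
    have h2 : (C * A' + 1) * (1 + Real.log ((N : ℝ) + 1)) ≤ 1 / 32 * c0 * s := by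
      rw [div_mul_eq_mul_div, le_div_iff₀ (by positivity)] at h1
      linarith
    have h3 : 1 / 32 * (c0 * s) ≤ 1 / 32 * x := by linarith
    have h4 : C * A' * (1 + Real.log ((N : ℝ) + 1)) ≤ 1 / 32 * x := by nlinarith
    have h5 : (C * (1 + Real.log ((N : ℝ) + 1)) * x ^ (d + 1)) * x ≤ (1 / 32 * N) * x := by
      calc (C * (1 + Real.log ((N : ℝ) + 1)) * x ^ (d + 1)) * x =
            C * (1 + Real.log ((N : ℝ) + 1)) * x ^ (d + 2) := by ring
        _ ≤ C * (1 + Real.log ((N : ℝ) + 1)) * (A' * N) :=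
            mul_le_mul_of_nonneg_left hSN' (by positivity)
        _ = (C * A' * (1 + Real.log ((N : ℝ) + 1))) * N := by ring
        _ ≤ (1 / 32 * x) * N := mul_le_mul_of_nonneg_right h4 (by linarith)
        _ = _ := by ring
    exact le_of_mul_le_mul_right h5 (by linarith)
  set N' := N - (G + 1) with hN'
  have hN'G : N' + G ≤ N := by omega
  -- the three classes
  set bad := (range N').filter (fun m => TT b y (d + 2) m ≤ c' * TT b y (d + 1) m) with hbad
  set gap := (range N').filter (fun m => (¬ TT b y (d + 2) m ≤ c' * TT b y (d + 1) m) ∧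
    ∀ i, m < i → i ≤ m + G → rr (xx b y) (d + 2) i = 0) with hgap
  set good := (range N').filter (fun m => ∃ i, m < i ∧ i ≤ m + G ∧ rr (xx b y) (d + 2) i ≠ 0)
    with hgood
  have hcover : range N' ⊆ bad ∪ gap ∪ good := by
    intro m hm
    rw [mem_union, mem_union, hbad, hgap, hgood, mem_filter, mem_filter, mem_filter]
    by_cases h1 : TT b y (d + 2) m ≤ c' * TT b y (d + 1) m
    · exact Or.inl (Or.inl ⟨hm, h1⟩)
    · by_cases h2 : ∃ i, m < i ∧ i ≤ m + G ∧ rr (xx b y) (d + 2) i ≠ 0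
      · exact Or.inr ⟨hm, h2⟩
      · refine Or.inl (Or.inr ⟨hm, h1, fun i hi1 hi2 => ?_⟩)
        by_contra h3
        exact h2 ⟨i, hi1, hi2, h3⟩
  have hcard : N' ≤ bad.card + gap.card + good.card := by
    have := card_le_card hcover
    rw [card_range] at this
    exact this.trans ((card_union_le _ _).trans (Nat.add_le_add_right (card_union_le _ _) _))
  have hbadc : (bad.card : ℝ) ≤ 1 / 16 * N := by
    have h1 := hCn N
    rw [← hx] at h1
    have h2 : bad.card ≤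
        ((range N).filter (fun m => TT b y (d + 1 + 1) m ≤ c' * TT b y (d + 1) m)).card := by
      apply card_le_card
      intro m hm
      obtain ⟨h3, h4⟩ := mem_filter.mp hm
      exact mem_filter.mpr ⟨mem_range.mpr (by have := mem_range.mp h3; omega), h4⟩
    have h2' : (bad.card : ℝ) ≤
        ((range N).filter (fun m => TT b y (d + 1 + 1) m ≤ c' * TT b y (d + 1) m)).card := by
      exact_mod_cast h2
    have h3 : (((range N).filter
        (fun m => TT b y (d + 1 + 1) m ≤ c' * TT b y (d + 1) m)).card : ℝ) ≤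
        C * (1 + Real.log ((N : ℝ) + 1)) * x ^ (d + 1) + 1 / 32 * N := by
      convert h1
    linarith
  have hgapc : (gap.card : ℝ) ≤ 1 / 16 * N := by
    have h1 : (b : ℝ) ^ G * (gap.card : ℝ) ≤
        ∑ m ∈ range N', (a * TT b y (d + 2) (m + G) + c' * TT b y (d + 1) (m + G)) := by
      rw [hgap, card_filter]
      push_cast
      rw [mul_sum]
      refine sum_le_sum fun m _ => ?_
      have e1 := TT_nonneg hb hy0 hy1 (d + 2) (m + G)
      have e2 := TT_nonneg hb hy0 hy1 (d + 1) (m + G)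
      split_ifs with h
      · have h2 := ZZ_pos hb hy0 hy1 d c hP hc m h.1
        have h3 := ZZ_gap (b := b) (y := y) c hP m G (fun k hk1 hk2 => h.2 k hk1 hk2)
        have h4 := ZZ_le hb hy0 hy1 d c hP (m + G)
        have h5 : (1 : ℝ) ≤ ZZ c (d + 2) (xx b y) b m := by exact_mod_cast h2
        have h6 : (0 : ℝ) ≤ (b : ℝ) ^ G := by positivity
        rw [h3] at h4
        nlinarith
      · rw [mul_zero]; positivity
    have h2 : ∑ m ∈ range N', (a * TT b y (d + 2) (m + G) + c' * TT b y (d + 1) (m + G)) ≤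
        ∑ m ∈ range N, (a * TT b y (d + 2) m + c' * TT b y (d + 1) m) := by
      have e : ∑ m ∈ range N', (a * TT b y (d + 2) (m + G) + c' * TT b y (d + 1) (m + G)) =
          ∑ m ∈ Ico G (N' + G), (a * TT b y (d + 2) m + c' * TT b y (d + 1) m) := by
        rw [sum_Ico_eq_sum_range, Nat.add_sub_cancel]
        exact sum_congr rfl fun k _ => by rw [add_comm k G]
      rw [e]
      refine sum_le_sum_of_subset_of_nonneg ?_ fun m _ _ => ?_
      · intro k hk
        exact mem_range.mpr ((mem_Ico.mp hk).2.trans_le hN'G)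
      · have e1 := TT_nonneg hb hy0 hy1 (d + 2) m
        have e2 := TT_nonneg hb hy0 hy1 (d + 1) m
        positivity
    have h2r : ∑ m ∈ range N, (a * TT b y (d + 2) m + c' * TT b y (d + 1) m) =
        a * ∑ m ∈ range N, TT b y (d + 2) m + c' * ∑ m ∈ range N, TT b y (d + 1) m := by
      rw [sum_add_distrib, ← mul_sum, ← mul_sum]
    rw [h2r] at h2
    have h4 := TT_sum hb hy0 hy1 (d + 2) N
    have h5 := TT_sum hb hy0 hy1 (d + 1) N
    have h6 := TT_upper hb hy0 hy1 (d + 1) N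
    have h7 := TT_upper hb hy0 hy1 d N
    rw [← hx] at h4 h5 h6 h7
    have p1 : x ^ d ≤ x ^ (d + 2) := pow_le_pow_right₀ hx1 (by omega)
    have p2 : x ^ (d + 1) ≤ x ^ (d + 2) := pow_le_pow_right₀ hx1 (by omega)
    have p3 : 0 ≤ ∑ m ∈ range N, TT b y (d + 2) m :=
      sum_nonneg fun m _ => TT_nonneg hb hy0 hy1 (d + 2) m
    have p4 : 0 ≤ ∑ m ∈ range N, TT b y (d + 1) m :=
      sum_nonneg fun m _ => TT_nonneg hb hy0 hy1 (d + 1) m
    have q1 : (3 : ℝ) ^ (d + 2) * x ^ (d + 1) ≤ 3 ^ (d + 2) * x ^ (d + 2) :=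
      mul_le_mul_of_nonneg_left p2 (by positivity)
    have q2 : (3 : ℝ) ^ (d + 1) * x ^ d ≤ 3 ^ (d + 1) * x ^ (d + 2) :=
      mul_le_mul_of_nonneg_left p1 (by positivity)
    have r1 : ∑ m ∈ range N, TT b y (d + 2) m ≤ (3 ^ (d + 2) + 1) * x ^ (d + 2) := by nlinarith
    have r2 : ∑ m ∈ range N, TT b y (d + 1) m ≤ (3 ^ (d + 1) + 1) * x ^ (d + 2) := by nlinarith
    have r3 := mul_le_mul_of_nonneg_left r1 (by linarith : 0 ≤ a)
    have r4 := mul_le_mul_of_nonneg_left r2 hc'0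
    have h8 : (b : ℝ) ^ G * (gap.card : ℝ) ≤ C2 * (A' * N) := by
      have e1 : C2 * x ^ (d + 2) ≤ C2 * (A' * N) := mul_le_mul_of_nonneg_left hSN' hC20
      have e2 : C2 * x ^ (d + 2) = a * ((3 ^ (d + 2) + 1) * x ^ (d + 2)) +
        c' * ((3 ^ (d + 1) + 1) * x ^ (d + 2)) := by rw [hC2]; ring
      linarith
    have hbG : 0 < (b : ℝ) ^ G := by positivity
    by_contra hcon
    push Not at hcon
    have h9 : (b : ℝ) ^ G * (1 / 16 * N) < (b : ℝ) ^ G * (gap.card : ℝ) :=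
      mul_lt_mul_of_pos_left hcon hbG
    have h10 : 16 * C2 * A' * (1 / 16 * N) ≤ (b : ℝ) ^ G * (1 / 16 * N) :=
      mul_le_mul_of_nonneg_right hG.le (by linarith)
    nlinarith
  have hgoodc : good.card ≤
      G * ((Icc 1 N).filter (fun k => rr (xx b y) (d + 2) k ≠ 0)).card := by
    have hsub : good ⊆ ((range G) ×ˢ
        ((Icc 1 N).filter (fun k => rr (xx b y) (d + 2) k ≠ 0))).image
        (fun p : ℕ × ℕ => p.2 - 1 - p.1) := by
      intro k hk
      obtain ⟨hk1, i, hi1, hi2, hi3⟩ := mem_filter.mp hk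
      have hk3 := mem_range.mp hk1
      refine mem_image.mpr ⟨(i - 1 - k, i), mem_product.mpr ⟨mem_range.mpr (by omega),
        mem_filter.mpr ⟨mem_Icc.mpr ⟨by omega, by omega⟩, hi3⟩⟩, ?_⟩
      simp only
      omega
    refine (card_le_card hsub).trans (card_image_le.trans ?_)
    rw [card_product, card_range]
  have hN'R : (N' : ℝ) = N - (G + 1) := by
    rw [hN', Nat.cast_sub (by omega)]; push_cast; ring
  have hcardR : (N' : ℝ) ≤ bad.card + gap.card + good.card := by exact_mod_cast hcard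
  have hgoodR : (good.card : ℝ) ≤
      G * (((Icc 1 N).filter (fun k => rr (xx b y) (d + 2) k ≠ 0)).card : ℝ) := by
    exact_mod_cast hgoodc
  set m : ℝ := (((Icc 1 N).filter (fun k => rr (xx b y) (d + 2) k ≠ 0)).card : ℝ) with hm
  have hm0 : 0 ≤ m := Nat.cast_nonneg _
  have h7 : (N : ℝ) / 2 ≤ good.card := by linarith
  rw [div_mul_eq_mul_div, one_mul, div_le_iff₀ (by positivity)]
  nlinarith

/-- sums of at most `D` places -/
lemma sum_places {d k : ℕ} (hk : 1 ≤ k) (h : rr (xx b y) d k ≠ 0) :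
    ∃ l : List ℕ, l ≠ [] ∧ l.length ≤ d ∧ (∀ i ∈ l, 1 ≤ i ∧ x b y i ≠ 0) ∧ l.sum = k := by
  obtain ⟨l, hl1, hl2, hl3⟩ := sumOf_of (xx b y) d k h
  refine ⟨l.filter (fun i => i ≠ 0), ?_, ?_, ?_, ?_⟩
  · intro h0
    have h1 : l.sum = 0 := by
      rw [List.sum_eq_zero_iff]
      intro i hi
      by_contra h2
      have : i ∈ l.filter (fun i => i ≠ 0) := by
        rw [List.mem_filter]; exact ⟨hi, by simpa using h2⟩
      rw [h0] at this
      simp at this
    omega
  · exact (List.length_filter_le _ _).trans hl1.le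
  · intro i hi
    rw [List.mem_filter] at hi
    obtain ⟨h1, h2⟩ := hi
    have h3 : i ≠ 0 := by simpa using h2
    have h4 := hl2 i h1
    unfold xx at h4
    rw [if_neg h3] at h4
    exact ⟨Nat.one_le_iff_ne_zero.mpr h3, h4⟩
  · rw [← hl3]
    clear hl1 hl2 hl3
    induction l with
    | nil => simp
    | cons i l ih =>
      by_cases h0 : i = 0
      · subst h0
        simpa using ih
      · rw [List.filter_cons_of_pos (by simpa using h0), List.sum_cons, List.sum_cons, ih]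

open Classical in
/-- the theorem for roots of integer polynomials -/
theorem pos_real (hb : 2 ≤ b) (P : ℤ[X]) (hD : 2 ≤ P.natDegree) {ξ : ℝ} (hirr : Irrational ξ)
    (hP : aeval ξ P = 0) (A : ℝ) :
    ∃ κ : ℝ, 0 < κ ∧ ∃ N0 : ℕ, ∀ N : ℕ, N0 ≤ N →
      ((∑ k ∈ Icc 1 N, digit b ξ k : ℤ) : ℝ) ^ P.natDegree ≤ A * N →
      κ * N ≤ (((Icc 1 N).filter (fun k => ∃ l : List ℕ, l ≠ [] ∧ l.length ≤ P.natDegree ∧
        (∀ i ∈ l, 1 ≤ i ∧ digit b ξ i ≠ 0) ∧ l.sum = k)).card : ℝ) := by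
  -- make the leading coefficient positive
  wlog hlead : 0 < P.leadingCoeff generalizing P with hwlog
  · have hP0 : P ≠ 0 := by rintro rfl; simp at hD
    have hl0 : P.leadingCoeff ≠ 0 := leadingCoeff_ne_zero.mpr hP0
    have h := hwlog (-P) (by rw [natDegree_neg]; exact hD) (by rw [map_neg, hP, neg_zero])
      (by rw [leadingCoeff_neg]; omega)
    rw [natDegree_neg] at h
    exact h
  obtain ⟨d, hd⟩ : ∃ d, P.natDegree = d + 2 := ⟨P.natDegree - 2, by omega⟩
  set y : ℝ := Int.fract ξ with hy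
  have hyirr : Irrational y := by
    have : y = ξ - (⌊ξ⌋ : ℤ) := rfl
    rw [this]
    exact hirr.sub_intCast _
  have hy0 : 0 < y := lt_of_le_of_ne (Int.fract_nonneg ξ) (Ne.symm hyirr.ne_zero)
  have hy1 : y < 1 := Int.fract_lt_one ξ
  set r : ℤ := ⌊ξ⌋ - 1 with hr
  set Q : ℤ[X] := P.comp (X + C r) with hQ
  have hQdeg : Q.natDegree = d + 2 := by
    rw [hQ, natDegree_comp, natDegree_X_add_C, mul_one, hd]
  have hQlead : Q.leadingCoeff = P.leadingCoeff := by
    rw [hQ, leadingCoeff_comp (by rw [natDegree_X_add_C]; norm_num), leadingCoeff_X_add_C,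
      one_pow, mul_one]
  have hQ0 : aeval (1 + y) Q = 0 := by
    rw [hQ, aeval_comp]
    have : aeval (1 + y) (X + C r : ℤ[X]) = ξ := by
      have h1 : (⌊ξ⌋ : ℝ) + y = ξ := Int.floor_add_fract ξ
      have h2 : aeval (1 + y) (X + C r : ℤ[X]) = (1 + y) + (r : ℝ) := by
        rw [map_add, aeval_X, aeval_C]; rfl
      rw [h2, hr]
      push_cast
      linarith
    rw [this]; exact hP
  have hQsum : ∑ k ∈ range (d + 2 + 1), (Q.coeff k : ℝ) * (1 + y) ^ k = 0 := by
    rw [aeval_eq_sum_range, hQdeg] at hQ0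
    simpa [zsmul_eq_mul] using hQ0
  have hcoeff : Q.coeff (d + 2) = P.leadingCoeff := by
    rw [← hQlead]
    unfold leadingCoeff
    rw [hQdeg]
  have hξalg : IsAlgebraic ℚ ξ := by
    have h1 : IsAlgebraic ℤ ξ := ⟨P, by
      intro h
      rw [h] at hlead
      simp at hlead, hP⟩
    exact (IsFractionRing.isAlgebraic_iff ℤ ℚ ℝ).mp h1
  have halg : IsAlgebraic ℚ y := by
    have h1 : y = ξ - algebraMap ℚ ℝ (⌊ξ⌋ : ℚ) := by
      have : y = ξ - (⌊ξ⌋ : ℤ) := rfl
      rw [this]; simp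
    rw [h1]
    exact hξalg.sub (isAlgebraic_algebraMap _)
  obtain ⟨κ, hκ, N0, h⟩ := pos_alg hb hy0 hy1 halg hyirr d (fun k => Q.coeff k) hQsum (by
      show 0 < Q.coeff (d + 2)
      rw [hcoeff]; exact hlead) ((2 : ℝ) ^ (d + 2) * (max A 0 + 1))
  have hdig : ∀ k : ℕ, 1 ≤ k → digit b ξ k = (x b y k : ℤ) := by
    intro k hk
    obtain ⟨j, rfl⟩ : ∃ j, k = j + 1 := ⟨k - 1, by omega⟩
    have h1 := digit_sum_eq hb hirr (j + 1)
    have h2 := digit_sum_eq hb hirr j
    rw [Finset.sum_Icc_succ_top (by omega)] at h1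
    push_cast at h1 h2
    have h3 : (K b y (j + 1) : ℝ) = K b y j + x b y (j + 1) := by
      unfold K; rw [sum_range_succ _ (j + 1)]; push_cast; ring
    rw [← hy, h3] at h1
    rw [← hy] at h2
    have h4 : (digit b ξ (j + 1) : ℝ) = ((x b y (j + 1) : ℕ) : ℝ) := by linarith
    exact_mod_cast h4
  refine ⟨κ, hκ, max N0 1, fun N hN hS => ?_⟩
  have hN0 : N0 ≤ N := (le_max_left _ _).trans hN
  have hN1 : (1 : ℝ) ≤ N := by exact_mod_cast (le_max_right _ _).trans hN
  rw [digit_sum_eq hb hirr, hd, ← hy] at hS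
  have h1 := h N hN0 (by
    have h2 : ((KK b y N : ℕ) : ℝ) = K b y N + 1 := by
      rw [KK_eq hy0 hy1]; push_cast; ring
    rw [h2]
    have hK0 : (0 : ℝ) ≤ K b y N := Nat.cast_nonneg _
    have hA : A * N ≤ max A 0 * N := mul_le_mul_of_nonneg_right (le_max_left _ _) (by linarith)
    have hA2 : 0 ≤ max A 0 := le_max_right _ _
    rcases le_total (1 : ℝ) (K b y N) with h3 | h3
    · calc ((K b y N : ℝ) + 1) ^ (d + 2) ≤ (2 * (K b y N : ℝ)) ^ (d + 2) :=
            pow_le_pow_left₀ (by linarith) (by linarith) _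
        _ = 2 ^ (d + 2) * (K b y N : ℝ) ^ (d + 2) := mul_pow _ _ _
        _ ≤ 2 ^ (d + 2) * ((max A 0 + 1) * N) := by
            apply mul_le_mul_of_nonneg_left _ (by positivity)
            nlinarith
        _ = _ := by ring
    · calc ((K b y N : ℝ) + 1) ^ (d + 2) ≤ 2 ^ (d + 2) :=
            pow_le_pow_left₀ (by linarith) (by linarith) _
        _ = 2 ^ (d + 2) * 1 := by ring
        _ ≤ 2 ^ (d + 2) * ((max A 0 + 1) * N) := by
            apply mul_le_mul_of_nonneg_left _ (by positivity)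
            nlinarith
        _ = _ := by ring)
  refine h1.trans (Nat.cast_le.mpr (card_le_card ?_))
  intro k hk
  obtain ⟨hk1, hk2⟩ := mem_filter.mp hk
  refine mem_filter.mpr ⟨hk1, ?_⟩
  obtain ⟨l, hl1, hl2, hl3, hl4⟩ := sum_places (b := b) (y := y) (mem_Icc.mp hk1).1 hk2
  refine ⟨l, hl1, by rw [hd]; exact hl2, fun i hi => ?_, hl4⟩
  obtain ⟨h5, h6⟩ := hl3 i hi
  refine ⟨h5, ?_⟩
  rw [hdig i h5]
  exact_mod_cast h6

end

end Pool.Agent.V11235.SG
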