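import Pool.Agent.V11235.TP.Loc

/-!
# Sums of positions of nonzero digits
-/

set_option autoImplicit false

open Finset

namespace Pool.Agent.V11235.SG

open Pool.Agent.H820R3.DG (rr rr_succ rr_range)
open Pool.Agent.V11235.TP (FS FS_mono FS_Ioc rr_all)

/-- the digits; the integer part has the place `0` -/
noncomputable def dg (b : ℕ) (ξ : ℝ) (n : ℕ) : ℕ := if n = 0 then ⌊ξ⌋₊ else ⌊ξ * (b : ℝ) ^ n⌋₊ % b

/-- the fractional part of `ξ b ^ n` -/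
noncomputable def ep (b : ℕ) (ξ : ℝ) (n : ℕ) : ℝ := ξ * (b : ℝ) ^ n - ⌊ξ * (b : ℝ) ^ n⌋₊

/-- the tail of the `j`-th power -/
noncomputable def T (b : ℕ) (ξ : ℝ) (j N : ℕ) : ℝ :=
  ξ ^ j * (b : ℝ) ^ N - ∑ m ∈ range (N + 1), (rr (dg b ξ) j m : ℝ) * (b : ℝ) ^ (N - m)

section
variable {b : ℕ} {ξ : ℝ}

lemma dg_zero : dg b ξ 0 = ⌊ξ⌋₊ := by simp [dg]

lemma dg_succ (n : ℕ) : dg b ξ (n + 1) = ⌊ξ * (b : ℝ) ^ (n + 1)⌋₊ % b := by simp [dg]

lemma ep_nonneg (hξ : 0 ≤ ξ) (n : ℕ) : 0 ≤ ep b ξ n := by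
  unfold ep
  have := Nat.floor_le (show 0 ≤ ξ * (b : ℝ) ^ n by positivity)
  linarith

lemma ep_lt (n : ℕ) : ep b ξ n < 1 := by
  unfold ep
  have := Nat.lt_floor_add_one (ξ * (b : ℝ) ^ n)
  linarith

lemma ep_zero : ep b ξ 0 = ξ - dg b ξ 0 := by
  unfold ep
  rw [dg_zero]
  simp

lemma ep_succ (hb : 2 ≤ b) (n : ℕ) :
    ep b ξ (n + 1) = b * ep b ξ n - dg b ξ (n + 1) := by
  unfold ep
  rw [dg_succ]
  have hb0 : (b : ℝ) ≠ 0 := by
    have : (2 : ℝ) ≤ b := by exact_mod_cast hb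
    positivity
  have h1 : ⌊ξ * (b : ℝ) ^ n⌋₊ = ⌊ξ * (b : ℝ) ^ (n + 1)⌋₊ / b := by
    rw [← Nat.floor_div_natCast]
    congr 1
    rw [pow_succ]
    field_simp
  have h2 := Nat.div_add_mod ⌊ξ * (b : ℝ) ^ (n + 1)⌋₊ b
  rw [← h1] at h2
  have h3 : (b : ℝ) * ⌊ξ * (b : ℝ) ^ n⌋₊ + ((⌊ξ * (b : ℝ) ^ (n + 1)⌋₊ % b : ℕ) : ℝ) =
    ⌊ξ * (b : ℝ) ^ (n + 1)⌋₊ := by exact_mod_cast h2
  rw [pow_succ] at h3 ⊢
  linarith

lemma ep_pos (hb : 2 ≤ b) (hξ : 0 ≤ ξ) (hirr : Irrational ξ) (n : ℕ) : 0 < ep b ξ n := by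
  refine lt_of_le_of_ne (ep_nonneg hξ n) fun h => ?_
  unfold ep at h
  have h1 : Irrational (ξ * ((b ^ n : ℕ) : ℝ)) := hirr.mul_natCast (by positivity)
  apply h1
  refine ⟨(⌊ξ * (b : ℝ) ^ n⌋₊ : ℚ), ?_⟩
  push_cast
  linarith

lemma T_zero (N : ℕ) : T b ξ 0 N = 0 := by
  unfold T
  rw [sum_range_succ']
  simp [rr]

lemma T_succ (j N : ℕ) : T b ξ j (N + 1) = b * T b ξ j N - rr (dg b ξ) j (N + 1) := by
  unfold T
  rw [sum_range_succ _ (N + 1), Nat.sub_self, pow_zero, mul_one]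
  have h : ∑ m ∈ range (N + 1), (rr (dg b ξ) j m : ℝ) * (b : ℝ) ^ (N + 1 - m) =
      b * ∑ m ∈ range (N + 1), (rr (dg b ξ) j m : ℝ) * (b : ℝ) ^ (N - m) := by
    rw [mul_sum]
    refine sum_congr rfl fun m hm => ?_
    have : m ≤ N := by have := mem_range.mp hm; omega
    rw [Nat.succ_sub this, pow_succ]
    ring
  rw [h, pow_succ]
  ring

lemma T_rec (hb : 2 ≤ b) (j N : ℕ) :
    T b ξ (j + 1) N = ξ * T b ξ j N +
      ∑ i ∈ range (N + 1), (rr (dg b ξ) j i : ℝ) * ep b ξ (N - i) := by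
  induction N with
  | zero =>
    have h1 : rr (dg b ξ) (j + 1) 0 = dg b ξ 0 * rr (dg b ξ) j 0 := by
      rw [rr_range]; simp
    unfold T
    simp only [zero_add, range_one, sum_singleton, Nat.sub_self, pow_zero, mul_one, h1, ep_zero]
    push_cast
    ring
  | succ N ih =>
    rw [T_succ, ih, T_succ, sum_range_succ _ (N + 1), Nat.sub_self, ep_zero]
    have h1 : ∑ i ∈ range (N + 1), (rr (dg b ξ) j i : ℝ) * ep b ξ (N + 1 - i) =
        b * ∑ i ∈ range (N + 1), (rr (dg b ξ) j i : ℝ) * ep b ξ (N - i) -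
          ∑ i ∈ range (N + 1), (dg b ξ (N + 1 - i) : ℝ) * rr (dg b ξ) j i := by
      rw [mul_sum, ← sum_sub_distrib]
      refine sum_congr rfl fun i hi => ?_
      have : i ≤ N := by have := mem_range.mp hi; omega
      rw [Nat.succ_sub this, ep_succ hb]
      ring
    have h2 : (rr (dg b ξ) (j + 1) (N + 1) : ℝ) =
        ∑ i ∈ range (N + 1), (dg b ξ (N + 1 - i) : ℝ) * rr (dg b ξ) j i +
          dg b ξ 0 * rr (dg b ξ) j (N + 1) := by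
      rw [rr_range, sum_range_succ, Nat.sub_self]
      push_cast
      ring
    rw [h1, h2]
    ring

lemma T_nonneg (hb : 2 ≤ b) (hξ : 0 ≤ ξ) (j N : ℕ) : 0 ≤ T b ξ j N := by
  induction j with
  | zero => rw [T_zero]
  | succ j ih =>
    rw [T_rec hb]
    have h1 : 0 ≤ ∑ i ∈ range (N + 1), (rr (dg b ξ) j i : ℝ) * ep b ξ (N - i) :=
      sum_nonneg fun i _ => mul_nonneg (Nat.cast_nonneg _) (ep_nonneg hξ _)
    have h2 : 0 ≤ ξ * T b ξ j N := mul_nonneg hξ ih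
    linarith

lemma T_pos (hb : 2 ≤ b) (hξ : 0 < ξ) (hirr : Irrational ξ) (j N : ℕ) : 0 < T b ξ (j + 1) N := by
  induction j with
  | zero =>
    rw [T_rec hb, T_zero, sum_range_succ']
    have h1 : ∑ k ∈ range N, (rr (dg b ξ) 0 (k + 1) : ℝ) * ep b ξ (N - (k + 1)) = 0 := by
      apply sum_eq_zero
      intro k _
      simp [rr]
    rw [h1]
    have h2 := ep_pos (b := b) hb hξ.le hirr N
    simpa [rr] using h2
  | succ j ih =>
    rw [T_rec hb]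
    have h1 : 0 ≤ ∑ i ∈ range (N + 1), (rr (dg b ξ) (j + 1) i : ℝ) * ep b ξ (N - i) :=
      sum_nonneg fun i _ => mul_nonneg (Nat.cast_nonneg _) (ep_nonneg hξ.le _)
    have h2 : 0 < ξ * T b ξ (j + 1) N := mul_pos hξ ih
    linarith

lemma T_step (hb : 2 ≤ b) (j N : ℕ) :
    T b ξ (j + 1) N ≤ ξ * T b ξ j N + (FS (dg b ξ) N : ℝ) ^ j := by
  rw [T_rec hb]
  have h1 : ∑ i ∈ range (N + 1), (rr (dg b ξ) j i : ℝ) * ep b ξ (N - i) ≤
      ∑ i ∈ range (N + 1), (rr (dg b ξ) j i : ℝ) := by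
    refine sum_le_sum fun i _ => ?_
    have h2 := ep_lt (b := b) (ξ := ξ) (N - i)
    have h3 : (0 : ℝ) ≤ rr (dg b ξ) j i := Nat.cast_nonneg _
    nlinarith
  have h4 : (∑ i ∈ range (N + 1), (rr (dg b ξ) j i : ℝ)) ≤ (FS (dg b ξ) N : ℝ) ^ j := by
    exact_mod_cast rr_all (dg b ξ) j N
  linarith

lemma T_upper (hb : 2 ≤ b) (hξ : 0 ≤ ξ) (j N : ℕ) (M K : ℝ) (hM1 : 1 ≤ M) (hM : ξ ≤ M)
    (hK1 : 1 ≤ K) (hK : (FS (dg b ξ) N : ℝ) ≤ K) :
    T b ξ (j + 1) N ≤ (j + 1) * M ^ j * K ^ j := by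
  induction j with
  | zero =>
    have := T_step (ξ := ξ) hb 0 N
    rw [T_zero] at this
    simpa using this
  | succ j ih =>
    have h1 := T_step (ξ := ξ) hb (j + 1) N
    have h2 : (FS (dg b ξ) N : ℝ) ^ (j + 1) ≤ K ^ (j + 1) :=
      pow_le_pow_left₀ (Nat.cast_nonneg _) hK _
    have h3 := T_nonneg hb hξ (j + 1) N
    have h4 : ξ * T b ξ (j + 1) N ≤ M * ((j + 1) * M ^ j * K ^ j) :=
      mul_le_mul hM ih h3 (by linarith)
    have h5 : K ^ j ≤ K ^ (j + 1) := pow_le_pow_right₀ hK1 (Nat.le_succ j)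
    have h6 : M * ((j + 1) * M ^ j * K ^ j) ≤ (j + 1) * M ^ (j + 1) * K ^ (j + 1) := by
      calc M * ((j + 1) * M ^ j * K ^ j) = (j + 1) * M ^ (j + 1) * K ^ j := by ring
        _ ≤ _ := by gcongr
    have h7 : K ^ (j + 1) ≤ M ^ (j + 1) * K ^ (j + 1) := by
      have : 1 ≤ M ^ (j + 1) := one_le_pow₀ hM1
      have hp : 0 ≤ K ^ (j + 1) := by positivity
      nlinarith
    push_cast
    calc T b ξ (j + 1 + 1) N ≤ ξ * T b ξ (j + 1) N + (FS (dg b ξ) N : ℝ) ^ (j + 1) := h1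
      _ ≤ (j + 1) * M ^ (j + 1) * K ^ (j + 1) + M ^ (j + 1) * K ^ (j + 1) := by linarith
      _ = _ := by ring

lemma T_sum (hb : 2 ≤ b) (hξ : 0 ≤ ξ) (j n : ℕ) :
    ((b : ℝ) - 1) * ∑ N ∈ range n, T b ξ j N ≤ T b ξ j n + (FS (dg b ξ) n : ℝ) ^ j := by
  have key : ((b : ℝ) - 1) * ∑ N ∈ range n, T b ξ j N + T b ξ j 0 + rr (dg b ξ) j 0 =
      T b ξ j n + ∑ m ∈ range (n + 1), (rr (dg b ξ) j m : ℝ) := by
    induction n with
    | zero => simp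
    | succ n ih =>
      rw [sum_range_succ, sum_range_succ _ (n + 1), T_succ]
      linarith
  have h1 : (∑ i ∈ range (n + 1), (rr (dg b ξ) j i : ℝ)) ≤ (FS (dg b ξ) n : ℝ) ^ j := by
    exact_mod_cast rr_all (dg b ξ) j n
  have h2 := T_nonneg hb hξ j 0
  have h3 : (0 : ℝ) ≤ rr (dg b ξ) j 0 := Nat.cast_nonneg _
  linarith

lemma T_zeros (j L : ℕ) : ∀ h : ℕ, (∀ k, L < k → k ≤ L + h → rr (dg b ξ) j k = 0) →
    T b ξ j (L + h) = (b : ℝ) ^ h * T b ξ j L := by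
  intro h
  induction h with
  | zero => intro _; simp
  | succ h ih =>
    intro hk
    rw [← add_assoc, T_succ, ih (fun k h1 h2 => hk k h1 (by omega)),
      hk (L + h + 1) (by omega) (by omega), pow_succ]
    push_cast
    ring

/-- `k` is a sum of `j` positions where `f` is not zero -/
def SumOf (f : ℕ → ℕ) (j k : ℕ) : Prop :=
  ∃ l : List ℕ, l.length = j ∧ (∀ i ∈ l, f i ≠ 0) ∧ l.sum = k

lemma sumOf_of (f : ℕ → ℕ) (j : ℕ) : ∀ k : ℕ, rr f j k ≠ 0 → SumOf f j k := by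
  induction j with
  | zero =>
    intro k hk
    simp only [rr] at hk
    have h0 : k = 0 := by
      by_contra h
      rw [if_neg h] at hk
      exact hk rfl
    exact ⟨[], rfl, by simp, by simp [h0]⟩
  | succ j ih =>
    intro k hk
    rw [rr_succ] at hk
    obtain ⟨p, hp, hp2⟩ := exists_ne_zero_of_sum_ne_zero hk
    have h1 : f p.1 ≠ 0 := left_ne_zero_of_mul hp2
    have h2 : rr f j p.2 ≠ 0 := right_ne_zero_of_mul hp2
    obtain ⟨l, hl1, hl2, hl3⟩ := ih p.2 h2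
    refine ⟨p.1 :: l, by simp [hl1], ?_, ?_⟩
    · intro i hi
      rcases List.mem_cons.mp hi with rfl | hi
      · exact h1
      · exact hl2 i hi
    · rw [List.sum_cons, hl3]
      exact HasAntidiagonal.mem_antidiagonal.mp hp

/-- `k` is a sum of `j` positions of nonzero digits with `1 ≤ j ≤ D`, `a j ≠ 0` -/
def Rep (b : ℕ) (ξ : ℝ) (D : ℕ) (a : ℕ → ℕ) (k : ℕ) : Prop :=
  ∃ j, 1 ≤ j ∧ j ≤ D ∧ a j ≠ 0 ∧ SumOf (dg b ξ) j k

/-- the integers -/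
noncomputable def Z (b : ℕ) (ξ : ℝ) (D : ℕ) (a : ℕ → ℕ) (N : ℕ) : ℝ :=
  ∑ j ∈ Icc 1 D, (a j : ℝ) * T b ξ j N

variable {D c : ℕ} {a : ℕ → ℕ}

lemma Z_nonneg (hb : 2 ≤ b) (hξ : 0 < ξ) (N : ℕ) : 0 ≤ Z b ξ D a N :=
  sum_nonneg fun j _ => mul_nonneg (Nat.cast_nonneg _) (T_nonneg hb hξ.le j N)

lemma Z_ge (hb : 2 ≤ b) (hξ : 0 < ξ) (hirr : Irrational ξ)
    (hP : ∑ j ∈ Icc 1 D, (a j : ℝ) * ξ ^ j = c) (hc : 0 < c) (N : ℕ) : 1 ≤ Z b ξ D a N := by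
  have h1 : Z b ξ D a N = ((c * b ^ N - ∑ j ∈ Icc 1 D, a j *
      ∑ m ∈ range (N + 1), rr (dg b ξ) j m * b ^ (N - m) : ℤ) : ℝ) := by
    unfold Z T
    simp only [mul_sub, sum_sub_distrib, ← mul_assoc]
    rw [← sum_mul, hP]
    push_cast
    rfl
  have h2 : 0 < Z b ξ D a N := by
    unfold Z
    have hex : ∃ j ∈ Icc 1 D, a j ≠ 0 := by
      by_contra hcon
      push Not at hcon
      have h3 : ∑ j ∈ Icc 1 D, (a j : ℝ) * ξ ^ j = 0 :=
        sum_eq_zero fun j hj => by rw [hcon j hj]; simp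
      rw [h3] at hP
      have : (0 : ℝ) < c := by exact_mod_cast hc
      linarith
    obtain ⟨j, hj, haj⟩ := hex
    refine sum_pos' (fun i _ => mul_nonneg (Nat.cast_nonneg _) (T_nonneg hb hξ.le i N))
      ⟨j, hj, ?_⟩
    obtain ⟨i, rfl⟩ : ∃ i, j = i + 1 := ⟨j - 1, by have := (mem_Icc.mp hj).1; omega⟩
    exact mul_pos (by exact_mod_cast Nat.pos_of_ne_zero haj) (T_pos hb hξ hirr i N)
  obtain ⟨X, hX⟩ : ∃ X : ℤ, Z b ξ D a N = (X : ℝ) := ⟨_, h1⟩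
  rw [hX] at h2 ⊢
  have h3 : (0 : ℤ) < X := by exact_mod_cast h2
  exact_mod_cast (by omega : (1 : ℤ) ≤ X)

lemma Z_zeros (N h : ℕ) (hk : ∀ k, N < k → k ≤ N + h → ¬ Rep b ξ D a k) :
    Z b ξ D a (N + h) = (b : ℝ) ^ h * Z b ξ D a N := by
  unfold Z
  rw [mul_sum]
  refine sum_congr rfl fun j hj => ?_
  obtain ⟨h1, h2⟩ := mem_Icc.mp hj
  by_cases haj : a j = 0
  · rw [haj]; simp
  · rw [T_zeros j N h (fun k hk1 hk2 => ?_)]
    · ring
    · by_contra hne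
      exact hk k hk1 hk2 ⟨j, h1, h2, haj, sumOf_of _ j k hne⟩

/-- the constant -/
noncomputable def CC (ξ : ℝ) (D : ℕ) (a : ℕ → ℕ) : ℝ :=
  ∑ j ∈ Icc 1 D, (a j : ℝ) * (j * (max 1 ξ) ^ (j - 1))

lemma CC_nonneg : 0 ≤ CC ξ D a :=
  sum_nonneg fun _ _ => mul_nonneg (Nat.cast_nonneg _) (mul_nonneg (Nat.cast_nonneg _)
    (pow_nonneg (le_max_of_le_left zero_le_one) _))

lemma Z_upper (hb : 2 ≤ b) (hξ : 0 < ξ) (N : ℕ) (K : ℝ)
    (hK1 : 1 ≤ K) (hK : (FS (dg b ξ) N : ℝ) ≤ K) :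
    Z b ξ D a N ≤ CC ξ D a * K ^ (D - 1) := by
  unfold Z CC
  rw [sum_mul]
  refine sum_le_sum fun j hj => ?_
  obtain ⟨h1, h2⟩ := mem_Icc.mp hj
  obtain ⟨i, rfl⟩ : ∃ i, j = i + 1 := ⟨j - 1, by omega⟩
  have h3 := T_upper hb hξ.le i N (max 1 ξ) K (le_max_left _ _) (le_max_right _ _) hK1 hK
  have h4 : K ^ i ≤ K ^ (D - 1) := pow_le_pow_right₀ hK1 (by omega)
  have hM : 0 ≤ (max 1 ξ) ^ i := pow_nonneg (le_max_of_le_left zero_le_one) _
  rw [Nat.add_sub_cancel, mul_assoc]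
  apply mul_le_mul_of_nonneg_left _ (Nat.cast_nonneg _)
  push_cast
  calc T b ξ (i + 1) N ≤ (i + 1) * (max 1 ξ) ^ i * K ^ i := h3
    _ ≤ (i + 1) * (max 1 ξ) ^ i * K ^ (D - 1) := by gcongr

/-- (G1) gaps -/
theorem gap_bound (hb : 2 ≤ b) (hξ : 0 < ξ) (hirr : Irrational ξ)
    (hP : ∑ j ∈ Icc 1 D, (a j : ℝ) * ξ ^ j = c) (hc : 0 < c) (N g : ℕ)
    (hk : ∀ k, N < k → k ≤ N + g → ¬ Rep b ξ D a k) :
    (b : ℝ) ^ g ≤ CC ξ D a * (max 1 (FS (dg b ξ) (N + g) : ℝ)) ^ (D - 1) := by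
  have h1 := Z_zeros N g hk
  have h2 := Z_ge hb hξ hirr hP hc N
  have h3 := Z_upper (D := D) (a := a) hb hξ (N + g) (max 1 (FS (dg b ξ) (N + g) : ℝ))
    (le_max_left _ _) (le_max_right _ _)
  have h4 : (0 : ℝ) ≤ (b : ℝ) ^ g := by positivity
  nlinarith

lemma Z_sum (hb : 2 ≤ b) (hξ : 0 < ξ) (n : ℕ) (K : ℝ) (hK1 : 1 ≤ K)
    (hK : (FS (dg b ξ) n : ℝ) ≤ K) :
    ∑ N ∈ range n, Z b ξ D a N ≤ (CC ξ D a + ∑ j ∈ Icc 1 D, (a j : ℝ)) * K ^ D := by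
  have hb1 : (1 : ℝ) ≤ (b : ℝ) - 1 := by
    have : (2 : ℝ) ≤ b := by exact_mod_cast hb
    linarith
  have h1 : ((b : ℝ) - 1) * ∑ N ∈ range n, Z b ξ D a N ≤
      Z b ξ D a n + ∑ j ∈ Icc 1 D, (a j : ℝ) * K ^ D := by
    have e1 : ((b : ℝ) - 1) * ∑ N ∈ range n, Z b ξ D a N =
        ∑ j ∈ Icc 1 D, (a j : ℝ) * (((b : ℝ) - 1) * ∑ N ∈ range n, T b ξ j N) := by
      unfold Z
      rw [sum_comm, mul_sum]
      refine sum_congr rfl fun j _ => ?_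
      rw [← mul_sum]; ring
    rw [e1]
    unfold Z
    rw [← sum_add_distrib]
    refine sum_le_sum fun j hj => ?_
    obtain ⟨h1, h2⟩ := mem_Icc.mp hj
    rw [← mul_add]
    apply mul_le_mul_of_nonneg_left _ (Nat.cast_nonneg _)
    refine (T_sum hb hξ.le j n).trans (add_le_add le_rfl ?_)
    calc (FS (dg b ξ) n : ℝ) ^ j ≤ K ^ j := pow_le_pow_left₀ (Nat.cast_nonneg _) hK _
      _ ≤ K ^ D := pow_le_pow_right₀ hK1 h2
  have h2 := Z_upper (D := D) (a := a) hb hξ n K hK1 hK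
  have h3 : K ^ (D - 1) ≤ K ^ D := pow_le_pow_right₀ hK1 (by omega)
  have h4 : CC ξ D a * K ^ (D - 1) ≤ CC ξ D a * K ^ D := mul_le_mul_of_nonneg_left h3 CC_nonneg
  have h5 : 0 ≤ ∑ N ∈ range n, Z b ξ D a N := sum_nonneg fun N _ => Z_nonneg hb hξ N
  rw [← sum_mul] at h1
  nlinarith

open Classical in
/-- (G2) few long gaps -/
theorem few_gaps (hb : 2 ≤ b) (hξ : 0 < ξ) (hirr : Irrational ξ)
    (hP : ∑ j ∈ Icc 1 D, (a j : ℝ) * ξ ^ j = c) (hc : 0 < c) (N G : ℕ) :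
    (b : ℝ) ^ G * (((range N).filter (fun k => ∀ i, k < i → i ≤ k + G → ¬ Rep b ξ D a i)).card : ℝ)
      ≤ (CC ξ D a + ∑ j ∈ Icc 1 D, (a j : ℝ)) * (max 1 (FS (dg b ξ) (N + G) : ℝ)) ^ D := by
  have h1 := Z_sum (D := D) (a := a) hb hξ (N + G) (max 1 (FS (dg b ξ) (N + G) : ℝ))
    (le_max_left _ _) (le_max_right _ _)
  refine le_trans ?_ h1
  have h2 : ∑ k ∈ range N, Z b ξ D a (k + G) ≤ ∑ k ∈ range (N + G), Z b ξ D a k := by
    have e : ∑ k ∈ range N, Z b ξ D a (k + G) = ∑ k ∈ Ico G (N + G), Z b ξ D a k := by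
      rw [sum_Ico_eq_sum_range, Nat.add_sub_cancel]
      exact sum_congr rfl fun k _ => by rw [add_comm]
    rw [e]
    refine sum_le_sum_of_subset_of_nonneg ?_ fun k _ _ => Z_nonneg hb hξ k
    intro k hk
    exact mem_range.mpr (mem_Ico.mp hk).2
  refine le_trans ?_ h2
  rw [card_filter]
  push_cast
  rw [mul_sum]
  refine sum_le_sum fun k _ => ?_
  split_ifs with h
  · rw [Z_zeros k G h]
    have h3 := Z_ge hb hξ hirr hP hc k
    have h4 : (0 : ℝ) ≤ (b : ℝ) ^ G := by positivity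
    nlinarith
  · rw [mul_zero]; exact Z_nonneg hb hξ _

open Classical in
/-- (G3) positive proportion if the digit sum is as small as possible -/
theorem positive (hb : 2 ≤ b) (hξ : 0 < ξ) (hirr : Irrational ξ)
    (hP : ∑ j ∈ Icc 1 D, (a j : ℝ) * ξ ^ j = c) (hc : 0 < c) (A : ℝ) :
    ∃ κ : ℝ, 0 < κ ∧ ∃ N0 : ℕ, ∀ N : ℕ, N0 ≤ N → (FS (dg b ξ) N : ℝ) ^ D ≤ A * N →
      κ * N ≤ (((Icc 1 N).filter (Rep b ξ D a)).card : ℝ) := by
  set C : ℝ := CC ξ D a + ∑ j ∈ Icc 1 D, (a j : ℝ) with hC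
  have hC0 : 0 ≤ C := add_nonneg CC_nonneg (sum_nonneg fun _ _ => Nat.cast_nonneg _)
  have hb2 : (2 : ℝ) ≤ b := by exact_mod_cast hb
  set A' : ℝ := max A 1 with hA'
  have hA1 : 1 ≤ A' := le_max_right _ _
  obtain ⟨G, hG⟩ := pow_unbounded_of_one_lt (4 * C * A') (show (1 : ℝ) < b by linarith)
  refine ⟨1 / (2 * (G + 1)), by positivity, 4 * (G + 1), fun N hN hSN => ?_⟩
  have hNR : (4 * ((G : ℝ) + 1)) ≤ N := by exact_mod_cast hN
  have hN1 : (1 : ℝ) ≤ N := by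
    have : (0 : ℝ) ≤ G := Nat.cast_nonneg _
    linarith
  have hK : (max 1 (FS (dg b ξ) N : ℝ)) ^ D ≤ A' * N := by
    rcases le_total (1 : ℝ) (FS (dg b ξ) N : ℝ) with h | h
    · rw [max_eq_right h]
      exact hSN.trans (mul_le_mul_of_nonneg_right (le_max_left _ _) (by linarith))
    · rw [max_eq_left h, one_pow]
      nlinarith
  -- few bad starting points below N - (G+1)
  have hNG : N - (G + 1) + G ≤ N := by omega
  have h1 := few_gaps (N := N - (G + 1)) (G := G) hb hξ hirr hP hc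
  have h2 : (max 1 (FS (dg b ξ) (N - (G + 1) + G) : ℝ)) ^ D ≤ (max 1 (FS (dg b ξ) N : ℝ)) ^ D := by
    apply pow_le_pow_left₀ (le_max_of_le_left zero_le_one)
    exact max_le_max le_rfl (Nat.cast_le.mpr (FS_mono _ hNG))
  set bad := (range (N - (G + 1))).filter (fun k => ∀ i, k < i → i ≤ k + G → ¬ Rep b ξ D a i)
    with hbad
  have h3 : (b : ℝ) ^ G * (bad.card : ℝ) ≤ C * (A' * N) := by
    refine h1.trans ?_
    exact mul_le_mul_of_nonneg_left (h2.trans hK) hC0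
  have h4 : (bad.card : ℝ) ≤ N / 4 := by
    have hbG : 0 < (b : ℝ) ^ G := by positivity
    by_contra hcon
    push Not at hcon
    have h5 : (b : ℝ) ^ G * (N / 4) < (b : ℝ) ^ G * (bad.card : ℝ) :=
      mul_lt_mul_of_pos_left hcon hbG
    have h6 : 4 * C * A' * (N / 4) ≤ (b : ℝ) ^ G * (N / 4) :=
      mul_le_mul_of_nonneg_right hG.le (by positivity)
    nlinarith
  -- the good starting points
  set good := (range (N - (G + 1))).filter (fun k => ¬ ∀ i, k < i → i ≤ k + G → ¬ Rep b ξ D a i)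
    with hgood
  have h5 : bad.card + good.card = N - (G + 1) := by
    rw [hbad, hgood, card_filter_add_card_filter_not]
    exact card_range _
  have h6 : good.card ≤ G * ((Icc 1 N).filter (Rep b ξ D a)).card := by
    have hsub : good ⊆ ((range G) ×ˢ ((Icc 1 N).filter (Rep b ξ D a))).image
        (fun p : ℕ × ℕ => p.2 - 1 - p.1) := by
      intro k hk
      obtain ⟨hk1, hk2⟩ := mem_filter.mp hk
      have hk3 := mem_range.mp hk1
      push Not at hk2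
      obtain ⟨i, hi1, hi2, hi3⟩ := hk2
      refine mem_image.mpr ⟨(i - 1 - k, i), mem_product.mpr ⟨mem_range.mpr (by omega),
        mem_filter.mpr ⟨mem_Icc.mpr ⟨by omega, by omega⟩, hi3⟩⟩, ?_⟩
      simp only
      omega
    refine (card_le_card hsub).trans (card_image_le.trans ?_)
    rw [card_product, card_range]
  have h5' : (bad.card : ℝ) + good.card = N - (G + 1) := by
    have h7 : ((N - (G + 1) : ℕ) : ℝ) = N - (G + 1) := by
      rw [Nat.cast_sub (by omega)]; push_cast; ring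
    rw [← h7]; exact_mod_cast h5
  have h6' : (good.card : ℝ) ≤ G * (((Icc 1 N).filter (Rep b ξ D a)).card : ℝ) := by
    exact_mod_cast h6
  have h7 : (N : ℝ) / 2 ≤ good.card := by linarith
  set m : ℝ := (((Icc 1 N).filter (Rep b ξ D a)).card : ℝ) with hm
  have hm0 : 0 ≤ m := Nat.cast_nonneg _
  have hG0 : (0 : ℝ) ≤ G := Nat.cast_nonneg _
  rw [div_mul_eq_mul_div, one_mul, div_le_iff₀ (by positivity)]
  nlinarith

end

end Pool.Agent.V11235.SG
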