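import Pool.Agent.V11235.SG.Prop
import Pool.Agent.V11235.SG.Log

/-!
# Sums of places of nonzero digits: relations with nonnegative coefficients
-/

set_option autoImplicit false

open Finset

namespace Pool.Agent.V11235.SG

open Pool.Agent.V11235.TP (FS FS_mono)

variable {b : ℕ} {ι : Type} {t : Finset ι} {a : ι → ℕ} {L : ι → List ℝ} {c : ℕ}

lemma SS_le (hb : 2 ≤ b) (x : ℝ) (n : ℕ) : (SS b x n : ℝ) ≤ ((⌊x⌋₊ : ℝ) + b) * ((n : ℝ) + 1) := by
  have h : SS b x n ≤ ⌊x⌋₊ + b * n := by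
    unfold SS FS
    rw [sum_range_succ']
    have h1 : ∀ k ∈ range n, dg b x (k + 1) ≤ b := fun k _ => by
      rw [dg_succ]; exact (Nat.mod_lt _ (by omega)).le
    have h2 := sum_le_sum h1
    rw [sum_const, card_range, smul_eq_mul] at h2
    rw [dg_zero]
    nlinarith
  have h' : (SS b x n : ℝ) ≤ (⌊x⌋₊ : ℝ) + b * n := by exact_mod_cast h
  have h3 : (0 : ℝ) ≤ ⌊x⌋₊ := Nat.cast_nonneg _
  have h4 : (0 : ℝ) ≤ b := Nat.cast_nonneg _
  have h5 : (0 : ℝ) ≤ n := Nat.cast_nonneg _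
  nlinarith [mul_nonneg h3 h5]

lemma PM_poly (hb : 2 ≤ b) {M : ℝ} (hM : 1 ≤ M) (l : List ℝ) (hl : ∀ x ∈ l, 0 < x ∧ x ≤ M) (n : ℕ) :
    PM b M l n ≤ (2 * M + b) ^ l.length * ((n : ℝ) + 1) ^ l.length := by
  induction l with
  | nil => rw [PM_nil]; simp
  | cons x l ih =>
    rw [PM_cons]
    have h1 := SS_le hb x n
    obtain ⟨hx0, hxM⟩ := hl x (by simp)
    have h2 : (⌊x⌋₊ : ℝ) ≤ M := (Nat.floor_le hx0.le).trans hxM
    have h5 : (0 : ℝ) ≤ n := Nat.cast_nonneg _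
    have hb0 : (0 : ℝ) ≤ b := Nat.cast_nonneg _
    have h3 : (SS b x n : ℝ) + M ≤ (2 * M + b) * ((n : ℝ) + 1) := by
      have : ((⌊x⌋₊ : ℝ) + b) * ((n : ℝ) + 1) ≤ (M + b) * ((n : ℝ) + 1) :=
        mul_le_mul_of_nonneg_right (by linarith) (by linarith)
      nlinarith
    have h4 := ih fun y hy => hl y (by simp [hy])
    have h6 := PM_nonneg (b := b) (by linarith : (0 : ℝ) ≤ M) l n
    calc ((SS b x n : ℝ) + M) * PM b M l n
        ≤ ((2 * M + b) * ((n : ℝ) + 1)) * ((2 * M + b) ^ l.length * ((n : ℝ) + 1) ^ l.length) :=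
          mul_le_mul h3 h4 h6 (by positivity)
      _ = (2 * M + b) ^ (x :: l).length * ((n : ℝ) + 1) ^ (x :: l).length := by
          rw [List.length_cons]; ring

lemma PM_pos {M : ℝ} (hM : 1 ≤ M) (l : List ℝ) (n : ℕ) : 1 ≤ PM b M l n := by
  induction l with
  | nil => rw [PM_nil]
  | cons x l ih =>
    rw [PM_cons]
    have : (0 : ℝ) ≤ SS b x n := Nat.cast_nonneg _
    nlinarith

open Classical in
/-- (M5) many sums, in terms of the digit sums -/
theorem log_list (hb : 2 ≤ b) {M : ℝ} (hM : 1 ≤ M)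
    (hL : ∀ i ∈ t, ∀ x ∈ L i, 0 < x ∧ x ≤ M)
    (hirr : ∃ i ∈ t, a i ≠ 0 ∧ ∃ x ∈ L i, Irrational x)
    (hP : ∑ i ∈ t, (a i : ℝ) * (L i).prod = c) :
    ∃ N0 : ℕ, ∀ N : ℕ, N0 ≤ N → Real.log 2 / 10 * N ≤
      (((Icc 1 N).filter (RepL t a L b)).card : ℝ) *
        Real.log (2 + (∑ i ∈ t, (a i : ℝ) * PM b M (L i) N) / N) := by
  set D := t.sup fun i => (L i).length with hD
  refine log_form hb (RepL t a L b) (fun N => ∑ i ∈ t, (a i : ℝ) * PM b M (L i) N) ?_ D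
    ((∑ i ∈ t, (a i : ℝ)) * (2 * M + b) ^ D) ?_ ?_
  · intro N
    obtain ⟨i, hi, hai, -⟩ := hirr
    refine sum_pos' (fun j hj => mul_nonneg (Nat.cast_nonneg _)
      (PM_nonneg (by linarith) (L j) N)) ⟨i, hi, mul_pos ?_ ?_⟩
    · exact_mod_cast Nat.pos_of_ne_zero hai
    · linarith [PM_pos (b := b) hM (L i) N]
  · intro N
    rw [sum_mul, sum_mul]
    refine sum_le_sum fun i hi => ?_
    rw [mul_assoc]
    refine mul_le_mul_of_nonneg_left ?_ (Nat.cast_nonneg _)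
    have h1 := PM_poly hb hM (L i) (hL i hi) N
    have h2 : (L i).length ≤ D := le_sup (f := fun i => (L i).length) hi
    have hb0 : (0 : ℝ) ≤ b := Nat.cast_nonneg _
    have h5 : (0 : ℝ) ≤ N := Nat.cast_nonneg _
    refine h1.trans (mul_le_mul (pow_le_pow_right₀ (by linarith) h2)
      (pow_le_pow_right₀ (by linarith) h2) (by positivity) (by positivity))
  · intro N G
    have h1 := few_list (N := N) (G := G) hb hM hL hirr hP
    have hb1 : (1 : ℝ) ≤ (b : ℝ) - 1 := by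
      have : (2 : ℝ) ≤ b := by exact_mod_cast hb
      linarith
    have h2 : 0 ≤ (b : ℝ) ^ G *
      (((range N).filter (fun k => ∀ i, k < i → i ≤ k + G → ¬ RepL t a L b i)).card : ℝ) := by
      positivity
    refine le_trans ?_ h1
    nlinarith

end Pool.Agent.V11235.SG
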