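import Pool.Agent.V11235.SG.Basic

/-!
# Positive relations between several real numbers

A monomial is a list of positive real numbers.
-/

set_option autoImplicit false

open Finset

namespace Pool.Agent.V11235.SG

open Pool.Agent.V11235.TP (FS FS_mono FS_Ioc pair_split)

/-- the convolution of the digits of the members of a list -/
noncomputable def rl (b : ℕ) : List ℝ → ℕ → ℕ
  | [], m => if m = 0 then 1 else 0
  | x :: l, m => ∑ p ∈ antidiagonal m, dg b x p.1 * rl b l p.2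

/-- digit sum, the integer part included -/
noncomputable def SS (b : ℕ) (x : ℝ) (n : ℕ) : ℕ := FS (dg b x) n

/-- the tail of the product of a list -/
noncomputable def TL (b : ℕ) (l : List ℝ) (N : ℕ) : ℝ :=
  l.prod * (b : ℝ) ^ N - ∑ m ∈ range (N + 1), (rl b l m : ℝ) * (b : ℝ) ^ (N - m)

/-- the product of the digit sums -/
noncomputable def PD (b : ℕ) (l : List ℝ) (n : ℕ) : ℕ := (l.map fun x => SS b x n).prod

section
variable {b : ℕ}

lemma rl_cons (x : ℝ) (l : List ℝ) (m : ℕ) :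
    rl b (x :: l) m = ∑ p ∈ antidiagonal m, dg b x p.1 * rl b l p.2 := rfl

lemma rl_range (x : ℝ) (l : List ℝ) (m : ℕ) :
    rl b (x :: l) m = ∑ i ∈ range (m + 1), dg b x (m - i) * rl b l i := by
  rw [rl_cons, Finset.Nat.sum_antidiagonal_eq_sum_range_succ_mk, ← Finset.sum_range_reflect]
  refine sum_congr rfl fun i hi => ?_
  have : i ≤ m := by have := mem_range.mp hi; omega
  have e1 : m + 1 - 1 - i = m - i := by omega
  have e2 : m - (m - i) = i := by omega
  simp only [e1, e2]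

lemma PD_nil (n : ℕ) : PD b [] n = 1 := by simp [PD]

lemma PD_cons (x : ℝ) (l : List ℝ) (n : ℕ) : PD b (x :: l) n = SS b x n * PD b l n := by
  simp [PD]

lemma SS_mono (x : ℝ) {m n : ℕ} (h : m ≤ n) : SS b x m ≤ SS b x n := FS_mono _ h

lemma PD_mono (l : List ℝ) {m n : ℕ} (h : m ≤ n) : PD b l m ≤ PD b l n := by
  induction l with
  | nil => simp [PD_nil]
  | cons x l ih =>
    rw [PD_cons, PD_cons]
    exact Nat.mul_le_mul (SS_mono x h) ih

lemma rl_all (l : List ℝ) (n : ℕ) : ∑ m ∈ range (n + 1), rl b l m ≤ PD b l n := by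
  induction l with
  | nil =>
    rw [sum_range_succ', PD_nil]
    simp [rl]
  | cons x l ih =>
    have h1 := Pool.Agent.H394R2.Ones.pair_sum n (fun i j => dg b x i * rl b l j)
    have h2 : ∑ m ∈ range (n + 1), rl b (x :: l) m ≤
        ∑ p ∈ range (n + 1) ×ˢ range (n + 1), dg b x p.1 * rl b l p.2 := by
      rw [h1]
      simp only [rl_cons]
      exact Nat.le_add_right _ _
    refine h2.trans ?_
    rw [sum_product, PD_cons]
    simp only [← mul_sum]
    rw [← sum_mul]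
    exact Nat.mul_le_mul le_rfl ih

/-- tuples not all of whose entries are at most `n` -/
lemma rl_new (l : List ℝ) : ∀ n m N0 : ℕ, l.length * n ≤ N0 → n ≤ m →
    ∑ k ∈ Ioc N0 m, rl b l k + PD b l n ≤ PD b l m := by
  induction l with
  | nil =>
    intro n m N0 _ _
    have : ∑ k ∈ Ioc N0 m, rl b [] k = 0 := by
      apply sum_eq_zero
      intro k hk
      have := (mem_Ioc.mp hk).1
      simp only [rl]
      rw [if_neg (by omega)]
    rw [this, PD_nil, PD_nil]
  | cons x l ih =>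
    intro n m N0 h0 hnm
    rw [List.length_cons] at h0
    have h1 := pair_split n m N0 (l.length * n) (fun i j => dg b x i * rl b l j) (by
      have : (l.length + 1) * n = l.length * n + n := by ring
      omega)
    have h2 : ∑ k ∈ Ioc N0 m, rl b (x :: l) k ≤
        SS b x n * ∑ j ∈ Ioc (l.length * n) m, rl b l j +
          (∑ i ∈ Ioc n m, dg b x i) * PD b l m := by
      simp only [rl_cons]
      refine h1.trans ?_
      simp only [← mul_sum]
      rw [← sum_mul, ← sum_mul]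
      exact Nat.add_le_add le_rfl (Nat.mul_le_mul le_rfl (rl_all l m))
    have h3 := ih n m (l.length * n) le_rfl hnm
    have h4 : SS b x n + ∑ i ∈ Ioc n m, dg b x i = SS b x m := FS_Ioc (dg b x) hnm
    rw [PD_cons, PD_cons]
    calc ∑ k ∈ Ioc N0 m, rl b (x :: l) k + SS b x n * PD b l n
        ≤ SS b x n * ∑ j ∈ Ioc (l.length * n) m, rl b l j +
          (∑ i ∈ Ioc n m, dg b x i) * PD b l m + SS b x n * PD b l n := Nat.add_le_add_right h2 _
      _ = SS b x n * (∑ j ∈ Ioc (l.length * n) m, rl b l j + PD b l n) +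
          (∑ i ∈ Ioc n m, dg b x i) * PD b l m := by ring
      _ ≤ SS b x n * PD b l m + (∑ i ∈ Ioc n m, dg b x i) * PD b l m :=
          Nat.add_le_add_right (Nat.mul_le_mul le_rfl h3) _
      _ = (SS b x n + ∑ i ∈ Ioc n m, dg b x i) * PD b l m := by ring
      _ = SS b x m * PD b l m := by rw [h4]

lemma TL_nil (N : ℕ) : TL b [] N = 0 := by
  unfold TL
  rw [sum_range_succ']
  simp [rl]

lemma TL_succ (l : List ℝ) (N : ℕ) : TL b l (N + 1) = b * TL b l N - rl b l (N + 1) := by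
  unfold TL
  rw [sum_range_succ _ (N + 1), Nat.sub_self, pow_zero, mul_one]
  have h : ∑ m ∈ range (N + 1), (rl b l m : ℝ) * (b : ℝ) ^ (N + 1 - m) =
      b * ∑ m ∈ range (N + 1), (rl b l m : ℝ) * (b : ℝ) ^ (N - m) := by
    rw [mul_sum]
    refine sum_congr rfl fun m hm => ?_
    have : m ≤ N := by have := mem_range.mp hm; omega
    rw [Nat.succ_sub this, pow_succ]
    ring
  rw [h, pow_succ]
  ring

lemma TL_rec (hb : 2 ≤ b) (x : ℝ) (l : List ℝ) (N : ℕ) :
    TL b (x :: l) N = x * TL b l N +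
      ∑ i ∈ range (N + 1), (rl b l i : ℝ) * ep b x (N - i) := by
  induction N with
  | zero =>
    have h1 : rl b (x :: l) 0 = dg b x 0 * rl b l 0 := by
      rw [rl_range]; simp
    unfold TL
    simp only [zero_add, range_one, sum_singleton, Nat.sub_self, pow_zero, mul_one, h1, ep_zero,
      List.prod_cons]
    push_cast
    ring
  | succ N ih =>
    rw [TL_succ, ih, TL_succ, sum_range_succ _ (N + 1), Nat.sub_self, ep_zero]
    have h1 : ∑ i ∈ range (N + 1), (rl b l i : ℝ) * ep b x (N + 1 - i) =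
        b * ∑ i ∈ range (N + 1), (rl b l i : ℝ) * ep b x (N - i) -
          ∑ i ∈ range (N + 1), (dg b x (N + 1 - i) : ℝ) * rl b l i := by
      rw [mul_sum, ← sum_sub_distrib]
      refine sum_congr rfl fun i hi => ?_
      have : i ≤ N := by have := mem_range.mp hi; omega
      rw [Nat.succ_sub this, ep_succ hb]
      ring
    have h2 : (rl b (x :: l) (N + 1) : ℝ) =
        ∑ i ∈ range (N + 1), (dg b x (N + 1 - i) : ℝ) * rl b l i +
          dg b x 0 * rl b l (N + 1) := by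
      rw [rl_range, sum_range_succ, Nat.sub_self]
      push_cast
      ring
    rw [h1, h2]
    ring

lemma TL_nonneg (hb : 2 ≤ b) (l : List ℝ) (hl : ∀ x ∈ l, 0 < x) (N : ℕ) : 0 ≤ TL b l N := by
  induction l with
  | nil => rw [TL_nil]
  | cons x l ih =>
    rw [TL_rec hb]
    have hx := hl x (by simp)
    have h1 : 0 ≤ ∑ i ∈ range (N + 1), (rl b l i : ℝ) * ep b x (N - i) :=
      sum_nonneg fun i _ => mul_nonneg (Nat.cast_nonneg _) (ep_nonneg hx.le _)
    have h2 : 0 ≤ x * TL b l N := mul_nonneg hx.le (ih fun y hy => hl y (by simp [hy]))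
    linarith

/-- the truncated product is smaller than the product -/
lemma trunc_pos (hb : 2 ≤ b) (l : List ℝ) (hl : ∀ x ∈ l, 0 < x) :
    ∃ m, rl b l m ≠ 0 := by
  induction l with
  | nil => exact ⟨0, by simp [rl]⟩
  | cons x l ih =>
    obtain ⟨m, hm⟩ := ih fun y hy => hl y (by simp [hy])
    have hx := hl x (by simp)
    -- a nonzero digit of x
    have hd : ∃ k, dg b x k ≠ 0 := by
      by_contra hcon
      push Not at hcon
      have h1 : ∀ n, ep b x n = (b : ℝ) ^ n * x := by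
        intro n
        induction n with
        | zero => rw [ep_zero, hcon 0]; simp
        | succ n ihn => rw [ep_succ hb, hcon (n + 1), ihn, pow_succ]; push_cast; ring
      have hb1 : (1 : ℝ) < b := by exact_mod_cast (by omega : 1 < b)
      obtain ⟨n, hn⟩ := pow_unbounded_of_one_lt (1 / x) hb1
      have h2 := ep_lt (b := b) (ξ := x) n
      rw [h1] at h2
      rw [div_lt_iff₀ hx] at hn
      linarith
    obtain ⟨k, hk⟩ := hd
    refine ⟨k + m, ?_⟩
    rw [rl_cons]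
    intro h0
    have h1 := (sum_eq_zero_iff.mp h0) (k, m) (by
      rw [HasAntidiagonal.mem_antidiagonal])
    exact (mul_ne_zero hk hm) h1

lemma TL_pos (hb : 2 ≤ b) (l : List ℝ) (hl : ∀ x ∈ l, 0 < x) (hirr : ∃ x ∈ l, Irrational x)
    (N : ℕ) : 0 < TL b l N := by
  -- it is enough to show this for some large index
  have hlarge : ∀ k, ∃ m, k ≤ m ∧ 0 < TL b l m := by
    induction l with
    | nil =>
      obtain ⟨x, hx, _⟩ := hirr
      simp at hx
    | cons x l ih =>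
      intro k
      have hl' : ∀ y ∈ l, 0 < y := fun y hy => hl y (by simp [hy])
      have hx := hl x (by simp)
      by_cases h : ∃ y ∈ l, Irrational y
      · obtain ⟨m, hkm, hm⟩ := ih hl' h k
        refine ⟨m, hkm, ?_⟩
        rw [TL_rec hb]
        have h1 : 0 ≤ ∑ i ∈ range (m + 1), (rl b l i : ℝ) * ep b x (m - i) :=
          sum_nonneg fun i _ => mul_nonneg (Nat.cast_nonneg _) (ep_nonneg hx.le _)
        have h2 := mul_pos hx hm
        linarith
      · have hxi : Irrational x := by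
          obtain ⟨y, hy, hyi⟩ := hirr
          rcases List.mem_cons.mp hy with rfl | hy
          · exact hyi
          · exact absurd ⟨y, hy, hyi⟩ h
        obtain ⟨m, hm⟩ := trunc_pos hb l hl'
        refine ⟨k + m, by omega, ?_⟩
        rw [TL_rec hb]
        have h2 := mul_nonneg hx.le (TL_nonneg hb l hl' (k + m))
        have h3 : (rl b l m : ℝ) * ep b x (k + m - m) ≤
            ∑ i ∈ range (k + m + 1), (rl b l i : ℝ) * ep b x (k + m - i) :=
          single_le_sum (f := fun i => (rl b l i : ℝ) * ep b x (k + m - i))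
            (fun i _ => mul_nonneg (Nat.cast_nonneg _) (ep_nonneg hx.le _))
            (mem_range.mpr (by omega))
        have h4 : 0 < (rl b l m : ℝ) * ep b x (k + m - m) :=
          mul_pos (by exact_mod_cast Nat.pos_of_ne_zero hm) (ep_pos hb hx.le hxi _)
        linarith
  obtain ⟨m, hNm, hm⟩ := hlarge N
  -- going down
  have hdown : ∀ k, TL b l k = 0 → ∀ h, TL b l (k + h) = 0 := by
    intro k hk h
    induction h with
    | zero => exact hk
    | succ h ih =>
      have h1 := TL_succ (b := b) l (k + h)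
      rw [ih, mul_zero, zero_sub] at h1
      have h2 := TL_nonneg hb l hl (k + h + 1)
      have h3 : (0 : ℝ) ≤ rl b l (k + h + 1) := Nat.cast_nonneg _
      rw [← add_assoc]
      linarith
  refine lt_of_le_of_ne (TL_nonneg hb l hl N) fun h0 => ?_
  have h1 := hdown N h0.symm (m - N)
  rw [Nat.add_sub_cancel' hNm] at h1
  linarith

lemma TL_step (hb : 2 ≤ b) (x : ℝ) (l : List ℝ) (N : ℕ) :
    TL b (x :: l) N ≤ x * TL b l N + PD b l N := by
  rw [TL_rec hb]
  have h1 : ∑ i ∈ range (N + 1), (rl b l i : ℝ) * ep b x (N - i) ≤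
      ∑ i ∈ range (N + 1), (rl b l i : ℝ) := by
    refine sum_le_sum fun i _ => ?_
    have h2 := ep_lt (b := b) (ξ := x) (N - i)
    have h3 : (0 : ℝ) ≤ rl b l i := Nat.cast_nonneg _
    nlinarith
  have h4 : (∑ i ∈ range (N + 1), (rl b l i : ℝ)) ≤ (PD b l N : ℝ) := by
    exact_mod_cast rl_all l N
  linarith

/-- the product of the numbers digit sum plus `M` -/
noncomputable def PM (b : ℕ) (M : ℝ) (l : List ℝ) (n : ℕ) : ℝ :=
  (l.map fun x => (SS b x n : ℝ) + M).prod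

lemma PM_nil (M : ℝ) (n : ℕ) : PM b M [] n = 1 := by simp [PM]

lemma PM_cons (M : ℝ) (x : ℝ) (l : List ℝ) (n : ℕ) :
    PM b M (x :: l) n = ((SS b x n : ℝ) + M) * PM b M l n := by simp [PM]

lemma PM_nonneg {M : ℝ} (hM : 0 ≤ M) (l : List ℝ) (n : ℕ) : 0 ≤ PM b M l n := by
  induction l with
  | nil => rw [PM_nil]; norm_num
  | cons x l ih =>
    rw [PM_cons]
    exact mul_nonneg (add_nonneg (Nat.cast_nonneg _) hM) ih

lemma PD_le_PM {M : ℝ} (hM : 0 ≤ M) (l : List ℝ) (n : ℕ) : (PD b l n : ℝ) ≤ PM b M l n := by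
  induction l with
  | nil => rw [PD_nil, PM_nil]; simp
  | cons x l ih =>
    rw [PD_cons, PM_cons]
    push_cast
    exact mul_le_mul (by linarith) ih (Nat.cast_nonneg _)
      (add_nonneg (Nat.cast_nonneg _) hM)

/-- tail plus product of digit sums -/
lemma TL_PD_le (hb : 2 ≤ b) {M : ℝ} (hM : 1 ≤ M) (l : List ℝ) (hl : ∀ x ∈ l, 0 < x ∧ x ≤ M)
    (N : ℕ) : TL b l N + PD b l N ≤ PM b M l N := by
  induction l with
  | nil => rw [TL_nil, PD_nil, PM_nil]; simp
  | cons x l ih =>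
    have h1 := TL_step hb x l N
    have h2 := ih fun y hy => hl y (by simp [hy])
    obtain ⟨hx0, hxM⟩ := hl x (by simp)
    have h3 := TL_nonneg hb l (fun y hy => (hl y (by simp [hy])).1) N
    rw [PD_cons, PM_cons]
    push_cast
    have h4 : x * TL b l N ≤ M * TL b l N := mul_le_mul_of_nonneg_right hxM h3
    have h5 : (0 : ℝ) ≤ PD b l N := Nat.cast_nonneg _
    have h6 : (0 : ℝ) ≤ SS b x N := Nat.cast_nonneg _
    have h7 : ((SS b x N : ℝ) + M) * (TL b l N + PD b l N) ≤ ((SS b x N : ℝ) + M) * PM b M l N :=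
      mul_le_mul_of_nonneg_left h2 (by linarith)
    nlinarith [mul_nonneg h6 h3]

lemma TL_upper (hb : 2 ≤ b) (l : List ℝ) (N : ℕ) (M K : ℝ) (hM1 : 1 ≤ M) (hK1 : 1 ≤ K)
    (hl : ∀ x ∈ l, 0 < x ∧ x ≤ M) (hK : ∀ x ∈ l, (SS b x N : ℝ) ≤ K) :
    TL b l N ≤ l.length * M ^ (l.length - 1) * K ^ (l.length - 1) ∧
      (PD b l N : ℝ) ≤ K ^ l.length := by
  induction l with
  | nil => rw [TL_nil, PD_nil]; simp
  | cons x l ih =>
    obtain ⟨h1, h2⟩ := ih (fun y hy => hl y (by simp [hy])) (fun y hy => hK y (by simp [hy]))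
    obtain ⟨hx0, hxM⟩ := hl x (by simp)
    have h3 := TL_nonneg hb l (fun y hy => (hl y (by simp [hy])).1) N
    have h4 := TL_step hb x l N
    rw [List.length_cons, Nat.add_sub_cancel]
    set d := l.length with hd
    constructor
    · have h5 : x * TL b l N ≤ M * (d * M ^ (d - 1) * K ^ (d - 1)) :=
        mul_le_mul hxM h1 h3 (by linarith)
      have h6 : M * (d * M ^ (d - 1) * K ^ (d - 1)) ≤ d * M ^ d * K ^ d := by
        rcases Nat.eq_zero_or_pos d with h0 | h0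
        · rw [h0]; simp
        · obtain ⟨e, he⟩ : ∃ e, d = e + 1 := ⟨d - 1, by omega⟩
          rw [he, Nat.add_sub_cancel]
          have h7 : K ^ e ≤ K ^ (e + 1) := pow_le_pow_right₀ hK1 (Nat.le_succ e)
          calc M * (((e + 1 : ℕ) : ℝ) * M ^ e * K ^ e) = ((e + 1 : ℕ) : ℝ) * M ^ (e + 1) * K ^ e := by
                ring
            _ ≤ _ := by gcongr
      have h8 : K ^ d ≤ M ^ d * K ^ d := by
        have : 1 ≤ M ^ d := one_le_pow₀ hM1
        have hp : 0 ≤ K ^ d := by positivity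
        nlinarith
      push_cast
      calc TL b (x :: l) N ≤ x * TL b l N + PD b l N := h4
        _ ≤ d * M ^ d * K ^ d + M ^ d * K ^ d := by linarith
        _ = _ := by ring
    · rw [PD_cons, pow_succ, mul_comm (K ^ d)]
      push_cast
      exact mul_le_mul (hK x (by simp)) h2 (Nat.cast_nonneg _) (by linarith)

lemma TL_sum2 (l : List ℝ) {N0 m : ℕ} (h : N0 ≤ m) :
    ((b : ℝ) - 1) * ∑ N ∈ Ico N0 m, TL b l N + TL b l N0 =
      TL b l m + ∑ k ∈ Ioc N0 m, (rl b l k : ℝ) := by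
  induction m, h using Nat.le_induction with
  | base => simp
  | succ m hm ih =>
    have e : Ioc N0 (m + 1) = insert (m + 1) (Ioc N0 m) := by
      ext x; simp only [mem_Ioc, mem_insert]; omega
    rw [e, sum_insert (by simp), sum_Ico_succ_top hm, TL_succ]
    linarith

lemma TL_zeros (l : List ℝ) (L : ℕ) : ∀ h : ℕ, (∀ k, L < k → k ≤ L + h → rl b l k = 0) →
    TL b l (L + h) = (b : ℝ) ^ h * TL b l L := by
  intro h
  induction h with
  | zero => intro _; simp
  | succ h ih =>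
    intro hk
    rw [← add_assoc, TL_succ, ih (fun k h1 h2 => hk k h1 (by omega)),
      hk (L + h + 1) (by omega) (by omega), pow_succ]
    push_cast
    ring

/-- `k` is a sum of places of nonzero digits, one for each member of the list -/
def SumL (b : ℕ) (l : List ℝ) (k : ℕ) : Prop :=
  ∃ s : List ℕ, List.Forall₂ (fun x i => dg b x i ≠ 0) l s ∧ s.sum = k

lemma sumL_of (l : List ℝ) : ∀ k : ℕ, rl b l k ≠ 0 → SumL b l k := by
  induction l with
  | nil =>
    intro k hk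
    simp only [rl] at hk
    have h0 : k = 0 := by
      by_contra h
      rw [if_neg h] at hk
      exact hk rfl
    exact ⟨[], List.Forall₂.nil, by simp [h0]⟩
  | cons x l ih =>
    intro k hk
    rw [rl_cons] at hk
    obtain ⟨p, hp, hp2⟩ := exists_ne_zero_of_sum_ne_zero hk
    have h1 : dg b x p.1 ≠ 0 := left_ne_zero_of_mul hp2
    have h2 : rl b l p.2 ≠ 0 := right_ne_zero_of_mul hp2
    obtain ⟨s, hs1, hs2⟩ := ih p.2 h2
    refine ⟨p.1 :: s, List.Forall₂.cons h1 hs1, ?_⟩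
    rw [List.sum_cons, hs2]
    exact HasAntidiagonal.mem_antidiagonal.mp hp

/-! ### relations -/

variable {ι : Type} (t : Finset ι) (a : ι → ℕ) (L : ι → List ℝ) (c : ℕ)

/-- the integers attached to a relation -/
noncomputable def ZL (b : ℕ) (N : ℕ) : ℝ := ∑ i ∈ t, (a i : ℝ) * TL b (L i) N

/-- `k` is a sum of places belonging to one of the monomials -/
def RepL (b : ℕ) (k : ℕ) : Prop := ∃ i ∈ t, a i ≠ 0 ∧ SumL b (L i) k

variable {t a L c}

lemma ZL_nonneg (hb : 2 ≤ b) (hL : ∀ i ∈ t, ∀ x ∈ L i, 0 < x) (N : ℕ) : 0 ≤ ZL t a L b N :=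
  sum_nonneg fun i hi => mul_nonneg (Nat.cast_nonneg _) (TL_nonneg hb (L i) (hL i hi) N)

lemma ZL_ge (hb : 2 ≤ b) (hL : ∀ i ∈ t, ∀ x ∈ L i, 0 < x)
    (hirr : ∃ i ∈ t, a i ≠ 0 ∧ ∃ x ∈ L i, Irrational x)
    (hP : ∑ i ∈ t, (a i : ℝ) * (L i).prod = c) (N : ℕ) : 1 ≤ ZL t a L b N := by
  have h1 : ZL t a L b N = ((c * b ^ N - ∑ i ∈ t, a i *
      ∑ m ∈ range (N + 1), rl b (L i) m * b ^ (N - m) : ℤ) : ℝ) := by
    unfold ZL TL
    simp only [mul_sub, sum_sub_distrib, ← mul_assoc]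
    rw [← sum_mul, hP]
    push_cast
    rfl
  have h2 : 0 < ZL t a L b N := by
    obtain ⟨i, hi, hai, hx⟩ := hirr
    exact sum_pos' (fun i hi => mul_nonneg (Nat.cast_nonneg _) (TL_nonneg hb (L i) (hL i hi) N))
      ⟨i, hi, mul_pos (by exact_mod_cast Nat.pos_of_ne_zero hai) (TL_pos hb (L i) (hL i hi) hx N)⟩
  obtain ⟨X, hX⟩ : ∃ X : ℤ, ZL t a L b N = (X : ℝ) := ⟨_, h1⟩
  rw [hX] at h2 ⊢
  have h3 : (0 : ℤ) < X := by exact_mod_cast h2
  exact_mod_cast (by omega : (1 : ℤ) ≤ X)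

lemma ZL_zeros (N h : ℕ) (hk : ∀ k, N < k → k ≤ N + h → ¬ RepL t a L b k) :
    ZL t a L b (N + h) = (b : ℝ) ^ h * ZL t a L b N := by
  unfold ZL
  rw [mul_sum]
  refine sum_congr rfl fun i hi => ?_
  by_cases hai : a i = 0
  · rw [hai]; simp
  · rw [TL_zeros (L i) N h (fun k hk1 hk2 => ?_)]
    · ring
    · by_contra hne
      exact hk k hk1 hk2 ⟨i, hi, hai, sumL_of _ k hne⟩

/-- (M1) digit sums between two places -/
theorem digits_two (hb : 2 ≤ b) {M : ℝ} (hM : 1 ≤ M) {D : ℕ}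
    (hL : ∀ i ∈ t, (L i).length ≤ D ∧ ∀ x ∈ L i, 0 < x ∧ x ≤ M)
    (hirr : ∃ i ∈ t, a i ≠ 0 ∧ ∃ x ∈ L i, Irrational x)
    (hP : ∑ i ∈ t, (a i : ℝ) * (L i).prod = c) (n m : ℕ) (hnm : n ≤ m) :
    ((b : ℝ) - 1) * ((m : ℝ) - D * n) ≤
      ∑ i ∈ t, (a i : ℝ) * (PM b M (L i) m - PD b (L i) n) := by
  have hL0 : ∀ i ∈ t, ∀ x ∈ L i, 0 < x := fun i hi x hx => ((hL i hi).2 x hx).1
  have hb1 : (1 : ℝ) ≤ (b : ℝ) - 1 := by
    have : (2 : ℝ) ≤ b := by exact_mod_cast hb
    linarith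
  have hterm : ∀ i ∈ t, 0 ≤ PM b M (L i) m - PD b (L i) n := by
    intro i _
    have h1 := PD_le_PM (b := b) (M := M) (by linarith) (L i) m
    have h2 : (PD b (L i) n : ℝ) ≤ PD b (L i) m := by exact_mod_cast PD_mono (L i) hnm
    linarith
  rcases le_or_gt (D * n) m with h | h
  · have h1 : ((m - D * n : ℕ) : ℝ) ≤ ∑ N ∈ Ico (D * n) m, ZL t a L b N := by
      have h2 : ∑ N ∈ Ico (D * n) m, (1 : ℝ) ≤ ∑ N ∈ Ico (D * n) m, ZL t a L b N :=
        sum_le_sum fun N _ => ZL_ge hb hL0 hirr hP N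
      rw [sum_const, Nat.card_Ico, nsmul_eq_mul, mul_one] at h2
      exact h2
    have h2 : ((b : ℝ) - 1) * ∑ N ∈ Ico (D * n) m, ZL t a L b N ≤
        ∑ i ∈ t, (a i : ℝ) * (PM b M (L i) m - PD b (L i) n) := by
      have e1 : ((b : ℝ) - 1) * ∑ N ∈ Ico (D * n) m, ZL t a L b N =
          ∑ i ∈ t, (a i : ℝ) * (((b : ℝ) - 1) * ∑ N ∈ Ico (D * n) m, TL b (L i) N) := by
        unfold ZL
        rw [sum_comm, mul_sum]
        refine sum_congr rfl fun j _ => ?_
        rw [← mul_sum]; ring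
      rw [e1]
      refine sum_le_sum fun i hi => mul_le_mul_of_nonneg_left ?_ (Nat.cast_nonneg _)
      have h3 := TL_sum2 (b := b) (L i) h
      have h4 := rl_new (b := b) (L i) n m (D * n) (Nat.mul_le_mul (hL i hi).1 le_rfl) hnm
      have h5 : (∑ k ∈ Ioc (D * n) m, (rl b (L i) k : ℝ)) + PD b (L i) n ≤ PD b (L i) m := by
        exact_mod_cast h4
      have h6 := TL_nonneg hb (L i) (hL0 i hi) (D * n)
      have h7 := TL_PD_le hb hM (L i) (hL i hi).2 m
      linarith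
    have h3 : ((m - D * n : ℕ) : ℝ) = (m : ℝ) - D * n := by
      rw [Nat.cast_sub h]; push_cast; ring
    rw [← h3]
    exact (mul_le_mul_of_nonneg_left h1 (by linarith)).trans h2
  · have h1 : (m : ℝ) < D * n := by exact_mod_cast h
    have h2 : ((b : ℝ) - 1) * ((m : ℝ) - D * n) ≤ 0 :=
      mul_nonpos_of_nonneg_of_nonpos (by linarith) (by linarith)
    exact h2.trans (sum_nonneg fun i hi => mul_nonneg (Nat.cast_nonneg _) (hterm i hi))

/-- (M2) gaps -/
theorem gap_list (hb : 2 ≤ b) {M : ℝ} (hM : 1 ≤ M) {D : ℕ}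
    (hL : ∀ i ∈ t, (L i).length ≤ D ∧ ∀ x ∈ L i, 0 < x ∧ x ≤ M)
    (hirr : ∃ i ∈ t, a i ≠ 0 ∧ ∃ x ∈ L i, Irrational x)
    (hP : ∑ i ∈ t, (a i : ℝ) * (L i).prod = c) (N g : ℕ) (K : ℝ) (hK1 : 1 ≤ K)
    (hK : ∀ i ∈ t, ∀ x ∈ L i, (SS b x (N + g) : ℝ) ≤ K)
    (hk : ∀ k, N < k → k ≤ N + g → ¬ RepL t a L b k) :
    (b : ℝ) ^ g ≤ (∑ i ∈ t, (a i : ℝ)) * (D * M ^ (D - 1)) * K ^ (D - 1) := by
  have hL0 : ∀ i ∈ t, ∀ x ∈ L i, 0 < x := fun i hi x hx => ((hL i hi).2 x hx).1
  have h1 := ZL_zeros N g hk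
  have h2 := ZL_ge hb hL0 hirr hP N
  have h3 : ZL t a L b (N + g) ≤ (∑ i ∈ t, (a i : ℝ)) * (D * M ^ (D - 1)) * K ^ (D - 1) := by
    unfold ZL
    rw [sum_mul, sum_mul]
    refine sum_le_sum fun i hi => ?_
    rw [mul_assoc]
    refine mul_le_mul_of_nonneg_left ?_ (Nat.cast_nonneg _)
    refine (TL_upper hb (L i) (N + g) M K hM hK1 (hL i hi).2 (hK i hi)).1.trans ?_
    have h4 := (hL i hi).1
    gcongr
  have h4 : (0 : ℝ) ≤ (b : ℝ) ^ g := by positivity
  nlinarith

open Classical in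
/-- (M3) few long gaps -/
theorem few_list (hb : 2 ≤ b) {M : ℝ} (hM : 1 ≤ M)
    (hL : ∀ i ∈ t, ∀ x ∈ L i, 0 < x ∧ x ≤ M)
    (hirr : ∃ i ∈ t, a i ≠ 0 ∧ ∃ x ∈ L i, Irrational x)
    (hP : ∑ i ∈ t, (a i : ℝ) * (L i).prod = c) (N G : ℕ) :
    ((b : ℝ) - 1) * ((b : ℝ) ^ G *
      (((range N).filter (fun k => ∀ i, k < i → i ≤ k + G → ¬ RepL t a L b i)).card : ℝ)) ≤
      ∑ i ∈ t, (a i : ℝ) * PM b M (L i) (N + G) := by
  have hL0 : ∀ i ∈ t, ∀ x ∈ L i, 0 < x := fun i hi x hx => (hL i hi x hx).1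
  have hb1 : (1 : ℝ) ≤ (b : ℝ) - 1 := by
    have : (2 : ℝ) ≤ b := by exact_mod_cast hb
    linarith
  have h1 : ((b : ℝ) - 1) * ∑ k ∈ Ico 0 (N + G), ZL t a L b k ≤
      ∑ i ∈ t, (a i : ℝ) * PM b M (L i) (N + G) := by
    have e1 : ((b : ℝ) - 1) * ∑ k ∈ Ico 0 (N + G), ZL t a L b k =
        ∑ i ∈ t, (a i : ℝ) * (((b : ℝ) - 1) * ∑ k ∈ Ico 0 (N + G), TL b (L i) k) := by
      unfold ZL
      rw [sum_comm, mul_sum]
      refine sum_congr rfl fun j _ => ?_
      rw [← mul_sum]; ring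
    rw [e1]
    refine sum_le_sum fun i hi => mul_le_mul_of_nonneg_left ?_ (Nat.cast_nonneg _)
    have h3 := TL_sum2 (b := b) (L i) (Nat.zero_le (N + G))
    have h5 : (∑ k ∈ Ioc 0 (N + G), (rl b (L i) k : ℝ)) ≤ PD b (L i) (N + G) := by
      have h4 := rl_all (b := b) (L i) (N + G)
      have h6 : ∑ k ∈ Ioc 0 (N + G), rl b (L i) k ≤ ∑ k ∈ range (N + G + 1), rl b (L i) k :=
        sum_le_sum_of_subset fun k hk => mem_range.mpr (by have := (mem_Ioc.mp hk).2; omega)
      exact_mod_cast h6.trans h4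
    have h6 := TL_nonneg hb (L i) (hL0 i hi) 0
    have h7 := TL_PD_le hb hM (L i) (hL i hi) (N + G)
    linarith
  refine le_trans (mul_le_mul_of_nonneg_left ?_ (by linarith)) h1
  have h2 : ∑ k ∈ range N, ZL t a L b (k + G) ≤ ∑ k ∈ Ico 0 (N + G), ZL t a L b k := by
    have e : ∑ k ∈ range N, ZL t a L b (k + G) = ∑ k ∈ Ico G (N + G), ZL t a L b k := by
      rw [sum_Ico_eq_sum_range, Nat.add_sub_cancel]
      exact sum_congr rfl fun k _ => by rw [add_comm]
    rw [e]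
    refine sum_le_sum_of_subset_of_nonneg ?_ fun k _ _ => ZL_nonneg hb hL0 k
    intro k hk
    exact mem_Ico.mpr ⟨Nat.zero_le _, (mem_Ico.mp hk).2⟩
  refine le_trans ?_ h2
  rw [card_filter]
  push_cast
  rw [mul_sum]
  refine sum_le_sum fun k _ => ?_
  split_ifs with h
  · rw [ZL_zeros k G h]
    have h3 := ZL_ge hb hL0 hirr hP k
    have h4 : (0 : ℝ) ≤ (b : ℝ) ^ G := by positivity
    nlinarith
  · rw [mul_zero]; exact ZL_nonneg hb hL0 _

end

end Pool.Agent.V11235.SG
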