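import Pool.Agent.V11235.SG.Lists

/-!
# Positive proportion of sums, relations
-/

set_option autoImplicit false

open Finset

namespace Pool.Agent.V11235.SG

open Pool.Agent.V11235.TP (FS FS_mono)

section
variable {b : ℕ} {ι : Type} {t : Finset ι} {a : ι → ℕ} {L : ι → List ℝ} {c : ℕ}

lemma PM_mono {M : ℝ} (hM : 0 ≤ M) (l : List ℝ) {m n : ℕ} (h : m ≤ n) :
    PM b M l m ≤ PM b M l n := by
  induction l with
  | nil => simp [PM_nil]
  | cons x l ih =>
    rw [PM_cons, PM_cons]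
    have h1 : (SS b x m : ℝ) ≤ SS b x n := by exact_mod_cast SS_mono x h
    exact mul_le_mul (by linarith) ih (PM_nonneg hM l m)
      (add_nonneg (Nat.cast_nonneg _) hM)

open Classical in
/-- (M4) positive proportion if the digit sums are small -/
theorem positive_list (hb : 2 ≤ b) {M : ℝ} (hM : 1 ≤ M)
    (hL : ∀ i ∈ t, ∀ x ∈ L i, 0 < x ∧ x ≤ M)
    (hirr : ∃ i ∈ t, a i ≠ 0 ∧ ∃ x ∈ L i, Irrational x)
    (hP : ∑ i ∈ t, (a i : ℝ) * (L i).prod = c) (A : ℝ) :
    ∃ κ : ℝ, 0 < κ ∧ ∃ N0 : ℕ, ∀ N : ℕ, N0 ≤ N → ∑ i ∈ t, (a i : ℝ) * PM b M (L i) N ≤ A * N →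
      κ * N ≤ (((Icc 1 N).filter (RepL t a L b)).card : ℝ) := by
  have hb2 : (2 : ℝ) ≤ b := by exact_mod_cast hb
  set A' : ℝ := max A 1 with hA'
  have hA1 : 1 ≤ A' := le_max_right _ _
  obtain ⟨G, hG⟩ := pow_unbounded_of_one_lt (4 * A') (show (1 : ℝ) < b by linarith)
  refine ⟨1 / (2 * (G + 1)), by positivity, 4 * (G + 1), fun N hN hSN => ?_⟩
  have hNR : (4 * ((G : ℝ) + 1)) ≤ N := by exact_mod_cast hN
  have hN1 : (1 : ℝ) ≤ N := by
    have : (0 : ℝ) ≤ G := Nat.cast_nonneg _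
    linarith
  have hNG : N - (G + 1) + G ≤ N := by omega
  have h1 := few_list (N := N - (G + 1)) (G := G) hb hM hL hirr hP
  set bad := (range (N - (G + 1))).filter (fun k => ∀ i, k < i → i ≤ k + G → ¬ RepL t a L b i)
    with hbad
  have h2 : ∑ i ∈ t, (a i : ℝ) * PM b M (L i) (N - (G + 1) + G) ≤
      ∑ i ∈ t, (a i : ℝ) * PM b M (L i) N :=
    sum_le_sum fun i _ => mul_le_mul_of_nonneg_left (PM_mono (by linarith) (L i) hNG)
      (Nat.cast_nonneg _)
  have h3 : (b : ℝ) ^ G * (bad.card : ℝ) ≤ A' * N := by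
    have e1 : 0 ≤ (b : ℝ) ^ G * (bad.card : ℝ) := by positivity
    have e2 : A * N ≤ A' * N := mul_le_mul_of_nonneg_right (le_max_left _ _) (by linarith)
    nlinarith
  have h4 : (bad.card : ℝ) ≤ N / 4 := by
    have hbG : 0 < (b : ℝ) ^ G := by positivity
    by_contra hcon
    push Not at hcon
    have h5 : (b : ℝ) ^ G * (N / 4) < (b : ℝ) ^ G * (bad.card : ℝ) :=
      mul_lt_mul_of_pos_left hcon hbG
    have h6 : 4 * A' * (N / 4) ≤ (b : ℝ) ^ G * (N / 4) :=
      mul_le_mul_of_nonneg_right hG.le (by positivity)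
    nlinarith
  set good := (range (N - (G + 1))).filter
    (fun k => ¬ ∀ i, k < i → i ≤ k + G → ¬ RepL t a L b i) with hgood
  have h5 : bad.card + good.card = N - (G + 1) := by
    rw [hbad, hgood, card_filter_add_card_filter_not]
    exact card_range _
  have h6 : good.card ≤ G * ((Icc 1 N).filter (RepL t a L b)).card := by
    have hsub : good ⊆ ((range G) ×ˢ ((Icc 1 N).filter (RepL t a L b))).image
        (fun p : ℕ × ℕ => p.2 - 1 - p.1) := by
      intro k hk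
      obtain ⟨hk1, hk2⟩ := mem_filter.mp hk
      have hk3 := mem_range.mp hk1
      push Not at hk2
      obtain ⟨i, hi1, hi2, hi3⟩ := hk2
      refine mem_image.mpr ⟨(i - 1 - k, i), mem_product.mpr ⟨mem_range.mpr (by omega),
        mem_filter.mpr ⟨mem_Icc.mpr ⟨by omega, by omega⟩, hi3⟩⟩, ?_⟩
      simp only
      omega
    refine (card_le_card hsub).trans (card_image_le.trans ?_)
    rw [card_product, card_range]
  have h5' : (bad.card : ℝ) + good.card = N - (G + 1) := by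
    have h7 : ((N - (G + 1) : ℕ) : ℝ) = N - (G + 1) := by
      rw [Nat.cast_sub (by omega)]; push_cast; ring
    rw [← h7]; exact_mod_cast h5
  have h6' : (good.card : ℝ) ≤ G * (((Icc 1 N).filter (RepL t a L b)).card : ℝ) := by
    exact_mod_cast h6
  have h7 : (N : ℝ) / 2 ≤ good.card := by linarith
  set m : ℝ := (((Icc 1 N).filter (RepL t a L b)).card : ℝ) with hm
  have hm0 : 0 ≤ m := Nat.cast_nonneg _
  have hG0 : (0 : ℝ) ≤ G := Nat.cast_nonneg _
  rw [div_mul_eq_mul_div, one_mul, div_le_iff₀ (by positivity)]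
  nlinarith

/-- relations in one number as relations between lists -/
lemma one_number {ξ : ℝ} {D : ℕ} {a : ℕ → ℕ} (hP : ∑ j ∈ Icc 1 D, (a j : ℝ) * ξ ^ j = c) :
    ∑ j ∈ Icc 1 D, (a j : ℝ) * (List.replicate j ξ).prod = c := by
  simpa using hP

lemma PM_replicate (M : ℝ) (ξ : ℝ) (j n : ℕ) :
    PM b M (List.replicate j ξ) n = ((SS b ξ n : ℝ) + M) ^ j := by
  simp [PM]

lemma PD_replicate (ξ : ℝ) (j n : ℕ) :
    PD b (List.replicate j ξ) n = (SS b ξ n) ^ j := by
  simp [PD]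

/-- two places, one number -/
theorem digits_two_one (hb : 2 ≤ b) {ξ : ℝ} (hξ : 0 < ξ) (hirr : Irrational ξ) {D : ℕ}
    {a : ℕ → ℕ} (hc : 0 < c) (hP : ∑ j ∈ Icc 1 D, (a j : ℝ) * ξ ^ j = c) (n m : ℕ)
    (hnm : n ≤ m) :
    ((b : ℝ) - 1) * ((m : ℝ) - D * n) ≤
      ∑ j ∈ Icc 1 D, (a j : ℝ) * (((SS b ξ m : ℝ) + max 1 ξ) ^ j - (SS b ξ n : ℝ) ^ j) := by
  have hex : ∃ j ∈ Icc 1 D, a j ≠ 0 := by
    by_contra hcon
    push Not at hcon
    have h3 : ∑ j ∈ Icc 1 D, (a j : ℝ) * ξ ^ j = 0 :=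
      sum_eq_zero fun j hj => by rw [hcon j hj]; simp
    rw [h3] at hP
    have : (0 : ℝ) < c := by exact_mod_cast hc
    linarith
  obtain ⟨j, hj, haj⟩ := hex
  have h := digits_two (t := Icc 1 D) (a := a) (L := fun j => List.replicate j ξ) (c := c)
    (D := D) hb (M := max 1 ξ) (le_max_left _ _) (fun i hi => ⟨by
      rw [List.length_replicate]; exact (mem_Icc.mp hi).2, fun x hx => by
      rw [List.eq_of_mem_replicate hx]
      exact ⟨hξ, le_max_right _ _⟩⟩)
    ⟨j, hj, haj, ξ, by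
      rw [List.mem_replicate]
      exact ⟨by have := (mem_Icc.mp hj).1; omega, rfl⟩, hirr⟩ (one_number hP) n m hnm
  simp only [PM_replicate, PD_replicate] at h
  push_cast at h
  exact h

end

end Pool.Agent.V11235.SG
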